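import Pool.Agent.L7h56.FB.L0

/-! Project FB: the field `0.83 ⟨v,u⟩² e + 0.17 ⟨e,u⟩⟨v,u⟩ v` (S_L) (helper56). -/

set_option autoImplicit false
set_option linter.unusedVariables false

open MeasureTheory Metric Set Filter Topology Module
open scoped ENNReal

namespace Pool.Agent.L7h56.FB

open Pool.Agent.H241R3.FV (E Sph sig)
open Pool.Agent.L7h64.FB

/-- coefficients of the bound -/
noncomputable def f1 (φ : ℝ) : ℝ := (83 / 100 + 100 / 83) / 2 * Real.sin φ ^ 2 - Real.sin φ ^ 3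

noncomputable def f2 (φ : ℝ) : ℝ :=
  Real.cos φ * (-(83 / 100) * Real.sin φ ^ 2 * (1 + Real.sin φ)⁻¹ +
    Real.sin φ * (1 + Real.sin φ + Real.sin φ ^ 2) * (1 + Real.sin φ)⁻¹ + Real.sin φ ^ 2) -
    Real.sin φ * Real.cos φ * (100 / 83)

noncomputable def f3 (φ : ℝ) : ℝ :=
  (83 / 200) * (Real.cos φ ^ 2 + 2 * Real.sin φ - 2 + 2 * (1 + Real.sin φ)⁻¹) +
    Real.cos φ ^ 2 * (50 / 83) - 1 + Real.sin φ ^ 3

noncomputable def f4 (φ : ℝ) : ℝ := (289 / 10000) * Real.cos φ ^ 2 * (50 / 83)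

theorem alg_R (l c g s k γ : ℝ) (hl : l ^ 2 + k ^ 2 = 1) (hc : c ^ 2 + s ^ 2 = 1)
    (hg : g ^ 2 + γ ^ 2 = 1) :
    c ^ 2 * ((83 / 100) ^ 2 * (γ * c + g * s * k) ^ 2 +
      2 * (83 / 100) * (17 / 100) * c * (γ * c + g * s * k) * γ + (17 / 100) ^ 2 * c ^ 2 -
      c ^ 2 * (γ * c + g * s * k) ^ 2) +
      ((83 / 100) * (γ * c + g * s * k) + (17 / 100) * c * γ - c ^ 2 * (γ * c + g * s * k)) ^ 2 =
    (-(c * s * γ) + g * k * (c ^ 2 - 83 / 100)) ^ 2 + c ^ 2 * ((17 / 100) * c * g * l) ^ 2 := by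
  linear_combination ((-289 / 10000) * c ^ 4 * g ^ 2) * hl +
    ((-9711 / 10000) * c ^ 2 * g ^ 2 * k ^ 2 + (-289 / 10000) * c ^ 2 * g ^ 2 + (-10289 / 10000) * c ^ 2 * γ ^ 2 + (289 / 10000) * c ^ 2 + (289 / 10000) * g ^ 2 * s ^ 2 + (6889 / 10000) * g ^ 2 * k ^ 2 + (-289 / 10000) * g ^ 2 + (289 / 10000) * s ^ 2 * γ ^ 2 + (-289 / 10000) * s ^ 2 + (-289 / 10000) * γ ^ 2 + (289 / 10000)) * hc +
    ((-289 / 10000) * s ^ 4 + (289 / 5000) * s ^ 2 + (-289 / 10000)) * hg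

theorem alg_B (l c g i s k γ R : ℝ) (hl : l ^ 2 + k ^ 2 = 1) (hc : c ^ 2 + s ^ 2 = 1)
    (hg : g ^ 2 + γ ^ 2 = 1) (hi : i * s + i = 1)
    (hR : R = c ^ 2 * ((83 / 100) ^ 2 * (γ * c + g * s * k) ^ 2 +
      2 * (83 / 100) * (17 / 100) * c * (γ * c + g * s * k) * γ + (17 / 100) ^ 2 * c ^ 2 -
      c ^ 2 * (γ * c + g * s * k) ^ 2) +
      ((83 / 100) * (γ * c + g * s * k) + (17 / 100) * c * γ - c ^ 2 * (γ * c + g * s * k)) ^ 2) :
    83 / 200 * s ^ 2 * (γ * c + g * s * k) ^ 2 + R * (50 / 83) -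
      s * (γ * c + g * s * k) *
        ((83 / 100) * (γ * c + g * s * k) + (17 / 100) * c * γ - c ^ 2 * (γ * c + g * s * k)) =
    c ^ 2 * (γ ^ 2 * ((83 / 100 + 100 / 83) / 2 * s ^ 2 - s ^ 3) +
      γ * g * k * (c * (-(83 / 100) * s ^ 2 * i + s * (1 + s + s ^ 2) * i + s ^ 2) -
        s * c * (100 / 83)) +
      g ^ 2 * (k ^ 2 * ((83 / 200) * (c ^ 2 + 2 * s - 2 + 2 * i) + c ^ 2 * (50 / 83) - 1 + s ^ 3) +
        l ^ 2 * ((289 / 10000) * c ^ 2 * (50 / 83)))) := by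
  rw [hR]
  linear_combination ((-289 / 16600) * c ^ 4 * g ^ 2) * hl +
    ((-1) * c ^ 2 * g ^ 2 * k ^ 2 + (-289 / 16600) * c ^ 2 * g ^ 2 + (1) * c ^ 2 * s * γ ^ 2 + (-10289 / 16600) * c ^ 2 * γ ^ 2 + (289 / 16600) * c ^ 2 + (-1) * c * g * i * s ^ 3 * k * γ + (-17 / 100) * c * g * i * s ^ 2 * k * γ + (-1) * c * g * i * s * k * γ + (1) * c * g * s ^ 2 * k * γ + (-83 / 100) * g ^ 2 * i * k ^ 2 + (83 / 200) * g ^ 2 * s ^ 2 * k ^ 2 + (289 / 16600) * g ^ 2 * s ^ 2 + (-83 / 100) * g ^ 2 * s * k ^ 2 + (83 / 100) * g ^ 2 * k ^ 2 + (-289 / 16600) * g ^ 2 + (289 / 16600) * s ^ 2 * γ ^ 2 + (-289 / 16600) * s ^ 2 + (-289 / 16600) * γ ^ 2 + (289 / 16600)) * hc +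
    ((83 / 100) * i * s ^ 2 * k ^ 2 + (-83 / 100) * i * k ^ 2 + (-289 / 16600) * s ^ 4 + (289 / 8300) * s ^ 2 + (-83 / 100) * s * k ^ 2 + (83 / 100) * k ^ 2 + (-289 / 16600)) * hg +
    ((1) * c * g * s ^ 4 * k * γ + (-83 / 100) * c * g * s ^ 3 * k * γ + (83 / 100) * c * g * s ^ 2 * k * γ + (-1) * c * g * s * k * γ + (-83 / 100) * s * k ^ 2 * γ ^ 2 + (83 / 100) * s * k ^ 2 + (83 / 100) * k ^ 2 * γ ^ 2 + (-83 / 100) * k ^ 2) * hi

/-- the pointwise bound -/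
theorem pt_le (e v u : E 3) (he : ‖e‖ = 1) (hv : ‖v‖ = 1) (hu : ‖u‖ = 1) (l c g s k γ : ℝ)
    (hl : l ^ 2 + k ^ 2 = 1) (hc : c ^ 2 + s ^ 2 = 1) (hg : g ^ 2 + γ ^ 2 = 1) (hs : 0 < s)
    (hc0 : c ≠ 0) (h1 : (inner ℝ e u : ℝ) = c) (h2 : (inner ℝ e v : ℝ) = γ)
    (h3 : (inner ℝ v u : ℝ) = γ * c + g * s * k) :
    s * N1 e u (qf ((83 / 100 : ℝ) • v) v 0 u • e + qf ((17 / 100 : ℝ) • e) v 0 u • v) ≤
    γ ^ 2 * ((83 / 100 + 100 / 83) / 2 * s ^ 2 - s ^ 3) +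
      γ * g * k * (c * (-(83 / 100) * s ^ 2 * (1 + s)⁻¹ + s * (1 + s + s ^ 2) * (1 + s)⁻¹ +
        s ^ 2) - s * c * (100 / 83)) +
      g ^ 2 * (k ^ 2 * ((83 / 200) * (c ^ 2 + 2 * s - 2 + 2 * (1 + s)⁻¹) + c ^ 2 * (50 / 83) - 1 +
        s ^ 3) + l ^ 2 * ((289 / 10000) * c ^ 2 * (50 / 83))) := by
  have hee : (inner ℝ e e : ℝ) = 1 := by rw [real_inner_self_eq_norm_sq, he]; norm_num
  have hvv : (inner ℝ v v : ℝ) = 1 := by rw [real_inner_self_eq_norm_sq, hv]; norm_num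
  have hve : (inner ℝ v e : ℝ) = γ := by rw [real_inner_comm]; exact h2
  have hue : (inner ℝ u e : ℝ) = c := by rw [real_inner_comm]; exact h1
  have huv : (inner ℝ u v : ℝ) = γ * c + g * s * k := by rw [real_inner_comm]; exact h3
  rw [N1_eq _ _ _ hu]
  set A : ℝ := γ * c + g * s * k with hA
  have hq1 : qf ((83 / 100 : ℝ) • v) v 0 u = 83 / 100 * A ^ 2 := by
    unfold qf; rw [real_inner_smul_left, h3]; ring
  have hq2 : qf ((17 / 100 : ℝ) • e) v 0 u = 17 / 100 * c * A := by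
    unfold qf; rw [real_inner_smul_left, h1, h3]; ring
  rw [hq1, hq2]
  set V : E 3 := (83 / 100 * A ^ 2) • e + (17 / 100 * c * A) • v with hV
  have k1 : (inner ℝ u V : ℝ) = A ^ 2 * c := by
    rw [hV, inner_add_right, real_inner_smul_right, real_inner_smul_right, hue, huv]; ring
  have k2 : (inner ℝ e V : ℝ) = A * (83 / 100 * A + 17 / 100 * c * γ) := by
    rw [hV, inner_add_right, real_inner_smul_right, real_inner_smul_right, hee, h2]; ring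
  have k3 : ‖V‖ ^ 2 = A ^ 2 * ((83 / 100) ^ 2 * A ^ 2 + 2 * (83 / 100) * (17 / 100) * c * A * γ +
      (17 / 100) ^ 2 * c ^ 2) := by
    rw [← real_inner_self_eq_norm_sq, hV]
    simp only [inner_add_left, inner_add_right, real_inner_smul_left, real_inner_smul_right,
      hee, hvv, hve, h2]
    ring
  rw [k1, k2, k3, h1]
  set R : ℝ := c ^ 2 * ((83 / 100) ^ 2 * A ^ 2 + 2 * (83 / 100) * (17 / 100) * c * A * γ +
      (17 / 100) ^ 2 * c ^ 2 - c ^ 2 * A ^ 2) + (83 / 100 * A + 17 / 100 * c * γ - c ^ 2 * A) ^ 2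
    with hR
  have hR0 : 0 ≤ R := by
    rw [hR, hA, alg_R l c g s k γ hl hc hg]
    positivity
  have k4 : c ^ 2 * (A ^ 2 * ((83 / 100) ^ 2 * A ^ 2 + 2 * (83 / 100) * (17 / 100) * c * A * γ +
      (17 / 100) ^ 2 * c ^ 2) - (A ^ 2 * c) ^ 2) + (A * (83 / 100 * A + 17 / 100 * c * γ) -
      A ^ 2 * c * c) ^ 2 = A ^ 2 * R := by rw [hR]; ring
  rw [k4]
  have hcp : 0 < c ^ 2 := by positivity
  have k5 : s * √(A ^ 2 * R) ≤ 83 / 200 * s ^ 2 * A ^ 2 + R * (50 / 83) := by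
    have h5 : s * √(A ^ 2 * R) = √((s * A) ^ 2 * R) := by
      rw [mul_pow, mul_assoc, Real.sqrt_mul (sq_nonneg s), Real.sqrt_sq hs.le]
    rw [h5]
    apply Real.sqrt_le_iff.2
    constructor
    · positivity
    · have h6 : (83 / 200 * s ^ 2 * A ^ 2 + R * (50 / 83)) ^ 2 - (s * A) ^ 2 * R =
          (83 / 200 * s ^ 2 * A ^ 2 - R * (50 / 83)) ^ 2 := by ring
      have h7 := sq_nonneg (83 / 200 * s ^ 2 * A ^ 2 - R * (50 / 83))
      linarith
  have k6 := alg_B l c g (1 + s)⁻¹ s k γ R hl hc hg (by field_simp; ring) hR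
  rw [← hA] at k6
  rw [← mul_div_assoc, div_le_iff₀ hcp]
  have k7 : s * (√(A ^ 2 * R) - (A * (83 / 100 * A + 17 / 100 * c * γ) - A ^ 2 * c * c)) =
      s * √(A ^ 2 * R) - s * A * (83 / 100 * A + 17 / 100 * c * γ - c ^ 2 * A) := by ring
  rw [k7]
  calc s * √(A ^ 2 * R) - s * A * (83 / 100 * A + 17 / 100 * c * γ - c ^ 2 * A)
      ≤ (83 / 200 * s ^ 2 * A ^ 2 + R * (50 / 83)) -
        s * A * (83 / 100 * A + 17 / 100 * c * γ - c ^ 2 * A) := by linarith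
    _ = _ := by rw [k6]; ring

/-! ### the integrals -/

theorem one_sin (φ : ℝ) (h : φ ∈ Icc (0:ℝ) Real.pi) : 0 < 1 + Real.sin φ := by
  have := Real.sin_nonneg_of_nonneg_of_le_pi h.1 h.2
  linarith

theorem uIcc_pi : uIcc (0:ℝ) Real.pi = Icc (0:ℝ) Real.pi := uIcc_of_le Real.pi_pos.le

theorem ii_f1 : IntervalIntegrable f1 volume 0 Real.pi := by
  apply Continuous.intervalIntegrable
  unfold f1; fun_prop

theorem ii_f2 : IntervalIntegrable f2 volume 0 Real.pi := by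
  apply ContinuousOn.intervalIntegrable
  rw [uIcc_pi]
  unfold f2
  have h : ContinuousOn (fun φ : ℝ => (1 + Real.sin φ)⁻¹) (Icc 0 Real.pi) :=
    ContinuousOn.inv₀ (by fun_prop) (fun φ hφ => (one_sin φ hφ).ne')
  fun_prop

theorem ii_f3 : IntervalIntegrable f3 volume 0 Real.pi := by
  apply ContinuousOn.intervalIntegrable
  rw [uIcc_pi]
  unfold f3
  have h : ContinuousOn (fun φ : ℝ => (1 + Real.sin φ)⁻¹) (Icc 0 Real.pi) :=
    ContinuousOn.inv₀ (by fun_prop) (fun φ hφ => (one_sin φ hφ).ne')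
  fun_prop

theorem ii_f4 : IntervalIntegrable f4 volume 0 Real.pi := by
  apply Continuous.intervalIntegrable
  unfold f4; fun_prop

/-- the primitive of `sin²` -/
theorem hd_sc (φ : ℝ) : HasDerivAt (fun φ => Real.sin φ * Real.cos φ)
    (Real.cos φ ^ 2 - Real.sin φ ^ 2) φ :=
  ((Real.hasDerivAt_sin φ).mul (Real.hasDerivAt_cos φ)).congr_deriv (by ring)

theorem hd_c3 (φ : ℝ) : HasDerivAt (fun φ => Real.cos φ ^ 3 / 3 - Real.cos φ)
    (Real.sin φ ^ 3) φ := by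
  refine ((((Real.hasDerivAt_cos φ).pow 3).div_const 3).sub (Real.hasDerivAt_cos φ)).congr_deriv ?_
  have := Real.sin_sq_add_cos_sq φ
  push_cast
  linear_combination (-Real.sin φ) * this

theorem int_f1 : ∫ φ in (0:ℝ)..Real.pi, f1 φ =
    (83 / 100 + 100 / 83) / 2 * (Real.pi / 2) - 4 / 3 := by
  have h : ∀ φ ∈ uIcc (0:ℝ) Real.pi, HasDerivAt (fun φ => (83 / 100 + 100 / 83) / 2 *
      ((φ - Real.sin φ * Real.cos φ) / 2) - (Real.cos φ ^ 3 / 3 - Real.cos φ)) (f1 φ) φ := by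
    intro φ _
    refine (((((hasDerivAt_id φ).sub (hd_sc φ)).div_const 2).const_mul _).sub
      (hd_c3 φ)).congr_deriv ?_
    have := Real.sin_sq_add_cos_sq φ
    unfold f1
    linear_combination (-(83 / 100 + 100 / 83) / 4 : ℝ) * this
  rw [intervalIntegral.integral_eq_sub_of_hasDerivAt h ii_f1]
  simp
  ring

theorem int_f4 : ∫ φ in (0:ℝ)..Real.pi, f4 φ = 289 / 10000 * (50 / 83) * (Real.pi / 2) := by
  have h : ∀ φ ∈ uIcc (0:ℝ) Real.pi, HasDerivAt (fun φ => 289 / 10000 * (50 / 83) *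
      ((φ + Real.sin φ * Real.cos φ) / 2)) (f4 φ) φ := by
    intro φ _
    refine ((((hasDerivAt_id φ).add (hd_sc φ)).div_const 2).const_mul _).congr_deriv ?_
    have := Real.sin_sq_add_cos_sq φ
    unfold f4
    linear_combination (-289 / 10000 * (50 / 83) / 2 : ℝ) * this
  rw [intervalIntegral.integral_eq_sub_of_hasDerivAt h ii_f4]
  simp

theorem int_f3 : ∫ φ in (0:ℝ)..Real.pi, f3 φ =
    83 / 200 * (8 - 3 * Real.pi / 2) + 50 / 83 * (Real.pi / 2) - Real.pi + 4 / 3 := by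
  have h : ∀ φ ∈ uIcc (0:ℝ) Real.pi, HasDerivAt (fun φ => 83 / 200 *
      ((φ + Real.sin φ * Real.cos φ) / 2 - 2 * Real.cos φ - 2 * φ -
        2 * (Real.cos φ * (1 + Real.sin φ)⁻¹)) +
      50 / 83 * ((φ + Real.sin φ * Real.cos φ) / 2) - φ + (Real.cos φ ^ 3 / 3 - Real.cos φ))
      (f3 φ) φ := by
    intro φ hφ
    rw [uIcc_pi] at hφ
    have h0 := (one_sin φ hφ).ne'
    have h1 : HasDerivAt (fun φ => (1 + Real.sin φ)⁻¹)
        (-(Real.cos φ) / (1 + Real.sin φ) ^ 2) φ :=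
      ((Real.hasDerivAt_sin φ).const_add 1).inv h0
    have h2 := (Real.hasDerivAt_cos φ).mul h1
    have h3 := ((hasDerivAt_id φ).add (hd_sc φ)).div_const 2
    refine ((((((h3.sub ((Real.hasDerivAt_cos φ).const_mul 2)).sub
      ((hasDerivAt_id φ).const_mul 2)).sub (h2.const_mul 2)).const_mul _).add
      (h3.const_mul _)).sub (hasDerivAt_id φ)).add (hd_c3 φ) |>.congr_deriv ?_
    have hs := Real.sin_sq_add_cos_sq φ
    unfold f3
    have hc : Real.cos φ ^ 2 = 1 - Real.sin φ ^ 2 := by linarith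
    have h4 : -Real.sin φ * (1 + Real.sin φ)⁻¹ + Real.cos φ * (-(Real.cos φ) /
        (1 + Real.sin φ) ^ 2) = -(1 + Real.sin φ)⁻¹ := by
      field_simp
      rw [hc]
      ring
    rw [h4, hc]
    ring
  rw [intervalIntegral.integral_eq_sub_of_hasDerivAt h ii_f3]
  simp
  ring

/-- the bound -/
noncomputable def FL (γ g ω φ : ℝ) : ℝ :=
  γ ^ 2 * f1 φ + γ * g * Real.cos ω * f2 φ +
    g ^ 2 * (Real.cos ω ^ 2 * f3 φ + Real.sin ω ^ 2 * f4 φ)

/-- its integral over `φ` -/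
noncomputable def PL (γ g ω : ℝ) : ℝ :=
  γ ^ 2 * (∫ φ in (0:ℝ)..Real.pi, f1 φ) + γ * g * Real.cos ω * (∫ φ in (0:ℝ)..Real.pi, f2 φ) +
    g ^ 2 * (Real.cos ω ^ 2 * (∫ φ in (0:ℝ)..Real.pi, f3 φ) +
      Real.sin ω ^ 2 * (∫ φ in (0:ℝ)..Real.pi, f4 φ))

theorem ii_FL (γ g ω : ℝ) : IntervalIntegrable (FL γ g ω) volume 0 Real.pi := by
  unfold FL
  exact ((ii_f1.const_mul _).add (ii_f2.const_mul _)).add
    (((ii_f3.const_mul _).add (ii_f4.const_mul _)).const_mul _)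

theorem int_FL (γ g ω : ℝ) : ∫ φ in (0:ℝ)..Real.pi, FL γ g ω φ = PL γ g ω := by
  unfold FL PL
  rw [intervalIntegral.integral_add ((ii_f1.const_mul _).add (ii_f2.const_mul _))
      (((ii_f3.const_mul _).add (ii_f4.const_mul _)).const_mul _),
    intervalIntegral.integral_add (ii_f1.const_mul _) (ii_f2.const_mul _),
    intervalIntegral.integral_const_mul, intervalIntegral.integral_const_mul,
    intervalIntegral.integral_const_mul,
    intervalIntegral.integral_add (ii_f3.const_mul _) (ii_f4.const_mul _),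
    intervalIntegral.integral_const_mul, intervalIntegral.integral_const_mul]

theorem int_PL (γ g : ℝ) (hg : g ^ 2 + γ ^ 2 = 1) :
    ∫ ω in (-Real.pi)..Real.pi, PL γ g ω ≤ 4 * Real.pi / 3 * (199 / 500) := by
  set I2 := ∫ φ in (0:ℝ)..Real.pi, f2 φ with hI2
  have h : ∀ ω ∈ uIcc (-Real.pi) Real.pi, HasDerivAt (fun ω =>
      γ ^ 2 * (∫ φ in (0:ℝ)..Real.pi, f1 φ) * ω + γ * g * I2 * Real.sin ω +
      (g ^ 2 * (∫ φ in (0:ℝ)..Real.pi, f3 φ) * ((ω + Real.sin ω * Real.cos ω) / 2) +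
       g ^ 2 * (∫ φ in (0:ℝ)..Real.pi, f4 φ) * ((ω - Real.sin ω * Real.cos ω) / 2)))
      (PL γ g ω) ω := by
    intro ω _
    refine ((((hasDerivAt_id ω).const_mul _).add ((Real.hasDerivAt_sin ω).const_mul _)).add
      (((((hasDerivAt_id ω).add (hd_sc ω)).div_const 2).const_mul _).add
      ((((hasDerivAt_id ω).sub (hd_sc ω)).div_const 2).const_mul _))).congr_deriv ?_
    have := Real.sin_sq_add_cos_sq ω
    unfold PL
    linear_combination (-(g ^ 2 * (∫ φ in (0:ℝ)..Real.pi, f3 φ) / 2) -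
      g ^ 2 * (∫ φ in (0:ℝ)..Real.pi, f4 φ) / 2) * this
  have hc : Continuous (PL γ g) := by unfold PL; fun_prop
  rw [intervalIntegral.integral_eq_sub_of_hasDerivAt h (hc.intervalIntegrable _ _),
    int_f1, int_f3, int_f4]
  simp only [Real.sin_neg, Real.sin_pi, Real.cos_neg, Real.cos_pi]
  have hg2 : g ^ 2 = 1 - γ ^ 2 := by linarith
  have hγ : 0 ≤ γ ^ 2 := sq_nonneg _
  have hgg : 0 ≤ g ^ 2 := sq_nonneg _
  have p1 := Real.pi_gt_d4
  have p2 := Real.pi_lt_d4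
  have e1 : (83 / 100 + 100 / 83) / 2 * (Real.pi / 2) - 4 / 3 ≤ 199 / 750 := by linarith
  have e2 : (83 / 200 * (8 - 3 * Real.pi / 2) + 50 / 83 * (Real.pi / 2) - Real.pi + 4 / 3 +
      289 / 10000 * (50 / 83) * (Real.pi / 2)) / 2 ≤ 199 / 750 := by linarith
  have e3 := mul_le_mul_of_nonneg_left e1 hγ
  have e4 := mul_le_mul_of_nonneg_left e2 hgg
  have e5 : γ ^ 2 * ((83 / 100 + 100 / 83) / 2 * (Real.pi / 2) - 4 / 3) +
      g ^ 2 * ((83 / 200 * (8 - 3 * Real.pi / 2) + 50 / 83 * (Real.pi / 2) - Real.pi + 4 / 3 +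
      289 / 10000 * (50 / 83) * (Real.pi / 2)) / 2) ≤ 199 / 750 := by
    have : γ ^ 2 * (199 / 750) + g ^ 2 * (199 / 750) = (199 / 750 : ℝ) := by
      rw [hg2]; ring
    linarith
  have e6 := mul_le_mul_of_nonneg_left e5 (by positivity : (0:ℝ) ≤ 2 * Real.pi)
  calc _ = 2 * Real.pi * (γ ^ 2 * ((83 / 100 + 100 / 83) / 2 * (Real.pi / 2) - 4 / 3) +
      g ^ 2 * ((83 / 200 * (8 - 3 * Real.pi / 2) + 50 / 83 * (Real.pi / 2) - Real.pi + 4 / 3 +
      289 / 10000 * (50 / 83) * (Real.pi / 2)) / 2)) := by ring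
    _ ≤ 2 * Real.pi * (199 / 750) := e6
    _ = _ := by ring

/-- [FB-L] -/
theorem s_L : S_L := by
  intro e v he hv
  obtain ⟨b, g, hb0, hvb, hγg⟩ := frame e v he hv
  set γ : ℝ := inner ℝ e v with hγ
  set V : E 3 → E 3 := fun u => qf ((83 / 100 : ℝ) • v) v 0 u • e +
    qf ((17 / 100 : ℝ) • e) v 0 u • v with hV
  have hcont : Continuous V := by
    rw [hV]; unfold qf; fun_prop
  have hm := N1_meas e V hcont
  have hg : g ^ 2 + γ ^ 2 = 1 := by linarith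
  have hpt : ∀ ω φ : ℝ, φ ∈ Ioo 0 Real.pi → φ ≠ Real.pi / 2 →
      Real.sin φ * N1 e (sp b ω φ) (V (sp b ω φ)) ≤ FL γ g ω φ := by
    intro ω φ hφ hφ2
    have hs : 0 < Real.sin φ := Real.sin_pos_of_pos_of_lt_pi hφ.1 hφ.2
    have hc0 : Real.cos φ ≠ 0 := by
      rcases lt_or_gt_of_ne hφ2 with h | h
      · exact (Real.cos_pos_of_mem_Ioo ⟨by linarith [hφ.1, Real.pi_pos], h⟩).ne'
      · exact (Real.cos_neg_of_pi_div_two_lt_of_lt h (by linarith [hφ.2, Real.pi_pos])).ne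
    have h1 : (inner ℝ e (sp b ω φ) : ℝ) = Real.cos φ := by rw [← hb0]; exact inner_b0_sp b ω φ
    have h3 : (inner ℝ v (sp b ω φ) : ℝ) = γ * Real.cos φ + g * Real.sin φ * Real.cos ω := by
      rw [hvb, inner_add_left, real_inner_smul_left, real_inner_smul_left, h1, inner_b1_sp]
      ring
    have h4 := pt_le e v (sp b ω φ) he hv (norm_sp b ω φ) (Real.sin ω) (Real.cos φ) g
      (Real.sin φ) (Real.cos ω) γ (Real.sin_sq_add_cos_sq ω) (by
        rw [add_comm]; exact Real.sin_sq_add_cos_sq φ) hg hs hc0 h1 hγ.symm h3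
    unfold FL f1 f2 f3 f4
    exact h4
  have hae : ∀ ω : ℝ, ∀ᵐ φ ∂(volume.restrict (Ioo (0:ℝ) Real.pi)),
      Real.sin φ * N1 e (sp b ω φ) (V (sp b ω φ)) ≤ FL γ g ω φ := by
    intro ω
    have h1 : ∀ᵐ φ : ℝ ∂volume, φ ≠ Real.pi / 2 := by
      rw [ae_iff]; simp
    refine (ae_restrict_iff' measurableSet_Ioo).2 ?_
    filter_upwards [h1] with φ h2 h3
    exact hpt ω φ h3 h2
  have hae0 : ∀ ω : ℝ, 0 ≤ᵐ[volume.restrict (Ioo (0:ℝ) Real.pi)] FL γ g ω := by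
    intro ω
    filter_upwards [hae ω, ae_restrict_mem measurableSet_Ioo] with φ h1 h2
    exact (mul_nonneg (Real.sin_nonneg_of_nonneg_of_le_pi h2.1.le h2.2.le)
      (N1_nonneg _ _ _)).trans h1
  have hPI : ∀ ω : ℝ, PL γ g ω = ∫ φ in Ioo (0:ℝ) Real.pi, FL γ g ω φ := by
    intro ω
    rw [← int_FL, intervalIntegral.integral_of_le Real.pi_pos.le, integral_Ioc_eq_integral_Ioo]
  have hP0 : ∀ ω : ℝ, 0 ≤ PL γ g ω := by
    intro ω
    rw [hPI]
    exact integral_nonneg_of_ae (hae0 ω)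
  have hin : ∀ ω : ℝ, ∫⁻ φ in Ioo 0 Real.pi, ENNReal.ofReal (Real.sin φ) *
      ENNReal.ofReal (N1 e (sp b ω φ) (V (sp b ω φ))) ≤ ENNReal.ofReal (PL γ g ω) := by
    intro ω
    refine (lintegral_mono_ae (g := fun φ => ENNReal.ofReal (FL γ g ω φ)) ?_).trans
      (le_of_eq ?_)
    · filter_upwards [hae ω, ae_restrict_mem measurableSet_Ioo] with φ h1 h2
      rw [← ENNReal.ofReal_mul (Real.sin_nonneg_of_nonneg_of_le_pi h2.1.le h2.2.le)]
      exact ENNReal.ofReal_le_ofReal h1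
    · rw [hPI, ofReal_integral_eq_lintegral_ofReal _ (hae0 ω)]
      exact ((intervalIntegrable_iff_integrableOn_Ioo_of_le Real.pi_pos.le).1 (ii_FL γ g ω))
  have H : ∫⁻ u : Sph 3, ENNReal.ofReal (N1 e (u : E 3) (V (u : E 3))) ∂(sig 3) ≤
      ENNReal.ofReal (4 * Real.pi / 3 * (199 / 500)) := by
    rw [sph_coord b (fun u => ENNReal.ofReal (N1 e u (V u))) hm.ennreal_ofReal]
    refine (lintegral_mono fun ω => hin ω).trans ?_
    have hc : Continuous (PL γ g) := by unfold PL; fun_prop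
    rw [← ofReal_integral_eq_lintegral_ofReal ((hc.integrableOn_Icc).mono_set
      Ioo_subset_Icc_self) (ae_of_all _ hP0)]
    apply ENNReal.ofReal_le_ofReal
    have h1 : ∫ ω in Ioo (-Real.pi) Real.pi, PL γ g ω = ∫ ω in (-Real.pi)..Real.pi, PL γ g ω := by
      rw [intervalIntegral.integral_of_le (by linarith [Real.pi_pos]),
        integral_Ioc_eq_integral_Ioo]
    rw [h1]
    exact int_PL γ g hg
  exact fin_of (fun u => N1 e u (V u)) hm (fun u => N1_nonneg _ _ _) _ (by positivity) H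

end Pool.Agent.L7h56.FB
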