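import Pool.Agent.L7h56.FB.Sph

/-! Project FB: frames, measurability, and the field `⟨v,u⟩² e` (S_L0) (helper56). -/

set_option autoImplicit false
set_option linter.unusedVariables false

open MeasureTheory Metric Set Filter Topology Module
open scoped ENNReal

namespace Pool.Agent.L7h56.FB

open Pool.Agent.H241R3.FV (E Sph sig)
open Pool.Agent.L7h64.FB

/-- an orthonormal basis with first vector `e` and `v` in the plane of the first two -/
theorem frame (e v : E 3) (he : ‖e‖ = 1) (hv : ‖v‖ = 1) :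
    ∃ (b : OrthonormalBasis (Fin 3) ℝ (E 3)) (g : ℝ), b 0 = e ∧
      v = (inner ℝ e v : ℝ) • e + g • b 1 ∧ (inner ℝ e v : ℝ) ^ 2 + g ^ 2 = 1 := by
  have hee : (inner ℝ e e : ℝ) = 1 := by rw [real_inner_self_eq_norm_sq, he]; norm_num
  have hvv : (inner ℝ v v : ℝ) = 1 := by rw [real_inner_self_eq_norm_sq, hv]; norm_num
  have hcard : finrank ℝ (E 3) = Fintype.card (Fin 3) := by simp
  set γ : ℝ := inner ℝ e v with hγ
  set w : E 3 := v - γ • e with hw
  have hew : (inner ℝ e w : ℝ) = 0 := by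
    rw [hw, inner_sub_right, real_inner_smul_right, hee, ← hγ]; ring
  have hvw : v = γ • e + w := by rw [hw]; abel
  have hnw : γ ^ 2 + ‖w‖ ^ 2 = 1 := by
    have h1 : (inner ℝ v v : ℝ) = γ ^ 2 + ‖w‖ ^ 2 := by
      rw [hvw]
      have h2 : (inner ℝ w e : ℝ) = 0 := by rw [real_inner_comm, hew]
      simp only [inner_add_left, inner_add_right, real_inner_smul_left, real_inner_smul_right,
        hee, hew, h2, real_inner_self_eq_norm_sq w]
      ring
    rw [← h1, hvv]
  by_cases h0 : w = 0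
  · have ho : Orthonormal ℝ (({0} : Set (Fin 3)).domRestrict (fun _ : Fin 3 => e)) := by
      constructor
      · intro i; exact he
      · intro i j hij
        exact absurd (Subtype.ext (by rw [i.2, j.2])) hij
    obtain ⟨b, hb⟩ := ho.exists_orthonormalBasis_extension_of_card_eq hcard
    refine ⟨b, 0, hb 0 rfl, ?_, ?_⟩
    · rw [zero_smul, add_zero]; nth_rewrite 1 [hvw]; rw [h0, add_zero]
    · rw [h0, norm_zero] at hnw; exact hnw
  · have hn : ‖w‖ ≠ 0 := norm_ne_zero_iff.2 h0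
    have ho : Orthonormal ℝ (({0, 1} : Set (Fin 3)).domRestrict
        (fun i : Fin 3 => if i = 0 then e else ‖w‖⁻¹ • w)) := by
      rw [orthonormal_iff_ite]
      rintro ⟨i, hi⟩ ⟨j, hj⟩
      have h3 : (inner ℝ w w : ℝ) = ‖w‖ ^ 2 := real_inner_self_eq_norm_sq w
      have h2 : (inner ℝ w e : ℝ) = 0 := by rw [real_inner_comm, hew]
      show (inner ℝ (if i = 0 then e else ‖w‖⁻¹ • w) (if j = 0 then e else ‖w‖⁻¹ • w) : ℝ) = _
      simp only [Subtype.mk.injEq]
      have h10 : (1 : Fin 3) ≠ 0 := by decide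
      rcases hi with rfl | hi
      · rcases hj with rfl | hj
        · rw [if_pos rfl, if_pos rfl]; exact hee
        · rw [mem_singleton_iff] at hj
          subst hj
          rw [if_pos rfl, if_neg h10, if_neg h10.symm, real_inner_smul_right, hew, mul_zero]
      · rw [mem_singleton_iff] at hi
        subst hi
        rcases hj with rfl | hj
        · rw [if_pos rfl, if_neg h10, if_neg h10, real_inner_smul_left, h2, mul_zero]
        · rw [mem_singleton_iff] at hj
          subst hj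
          rw [if_neg h10, if_pos rfl, real_inner_smul_left, real_inner_smul_right, h3]
          field_simp
    obtain ⟨b, hb⟩ := ho.exists_orthonormalBasis_extension_of_card_eq hcard
    refine ⟨b, ‖w‖, ?_, ?_, hnw⟩
    · rw [hb 0 (by simp)]; simp
    · rw [hb 1 (by simp)]
      simp only [Fin.isValue, one_ne_zero, if_false]
      rw [smul_smul, mul_inv_cancel₀ hn, one_smul]
      exact hvw

/-- integral bounds from bounds of the lower integral -/
theorem fin_of (g : E 3 → ℝ) (hg : Measurable g) (h0 : ∀ u, 0 ≤ g u) (K : ℝ) (hK : 0 ≤ K)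
    (H : ∫⁻ u : Sph 3, ENNReal.ofReal (g u) ∂(sig 3) ≤ ENNReal.ofReal K) :
    Integrable (fun u : Sph 3 => g u) (sig 3) ∧ ∫ u : Sph 3, g u ∂(sig 3) ≤ K := by
  have hm : Measurable (fun u : Sph 3 => g u) := hg.comp measurable_subtype_coe
  have hi : Integrable (fun u : Sph 3 => g u) (sig 3) := by
    refine ⟨hm.aestronglyMeasurable, ?_⟩
    rw [hasFiniteIntegral_iff_ofReal (ae_of_all _ fun u => h0 _)]
    exact lt_of_le_of_lt H ENNReal.ofReal_lt_top
  refine ⟨hi, ?_⟩
  rw [integral_eq_lintegral_of_nonneg_ae (ae_of_all _ fun u => h0 _) hm.aestronglyMeasurable]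
  exact ENNReal.toReal_le_of_le_ofReal hK H

/-- lower integrals from the inner integrals -/
theorem lint_le (b : OrthonormalBasis (Fin 3) ℝ (E 3)) (g : E 3 → ℝ) (hg : Measurable g)
    (K : ℝ) (hK : 0 ≤ K)
    (H : ∀ ω : ℝ, ∫⁻ φ in Ioo 0 Real.pi, ENNReal.ofReal (Real.sin φ * g (sp b ω φ)) ≤
      ENNReal.ofReal K) :
    ∫⁻ u : Sph 3, ENNReal.ofReal (g u) ∂(sig 3) ≤ ENNReal.ofReal (2 * Real.pi * K) := by
  rw [sph_coord b (fun u => ENNReal.ofReal (g u)) hg.ennreal_ofReal]
  have h1 : ∀ ω : ℝ, ∫⁻ φ in Ioo 0 Real.pi,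
      ENNReal.ofReal (Real.sin φ) * ENNReal.ofReal (g (sp b ω φ)) ≤ ENNReal.ofReal K := by
    intro ω
    refine le_trans (le_of_eq ?_) (H ω)
    refine setLIntegral_congr_fun measurableSet_Ioo fun φ hφ => ?_
    exact (ENNReal.ofReal_mul (Real.sin_nonneg_of_nonneg_of_le_pi hφ.1.le hφ.2.le)).symm
  refine (lintegral_mono fun ω => h1 ω).trans ?_
  rw [setLIntegral_const, Real.volume_Ioo, ← ENNReal.ofReal_mul hK]
  apply le_of_eq
  congr 1
  ring

theorem N1_nonneg (e u V : E 3) : 0 ≤ N1 e u V := by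
  unfold N1
  apply div_nonneg _ (sq_nonneg _)
  have h1 : (inner ℝ e (tg u V) : ℝ) ≤ √((inner ℝ e u : ℝ) ^ 2 * ‖tg u V‖ ^ 2 +
      (inner ℝ e (tg u V) : ℝ) ^ 2) := by
    have h2 := mul_nonneg (sq_nonneg (inner ℝ e u : ℝ)) (sq_nonneg ‖tg u V‖)
    exact Real.le_sqrt_of_sq_le (by linarith)
  linarith

theorem N1_meas (e : E 3) (V : E 3 → E 3) (hV : Continuous V) :
    Measurable (fun u => N1 e u (V u)) := by
  unfold N1 tg
  refine Measurable.div ?_ ?_
  · exact Continuous.measurable (by fun_prop)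
  · exact Continuous.measurable (by fun_prop)

theorem tg_sq (u V : E 3) (hu : ‖u‖ = 1) : ‖tg u V‖ ^ 2 = ‖V‖ ^ 2 - (inner ℝ u V : ℝ) ^ 2 := by
  have huu : (inner ℝ u u : ℝ) = 1 := by rw [real_inner_self_eq_norm_sq, hu]; norm_num
  have hc : (inner ℝ V u : ℝ) = inner ℝ u V := real_inner_comm _ _
  unfold tg
  rw [← real_inner_self_eq_norm_sq, ← real_inner_self_eq_norm_sq]
  simp only [inner_sub_left, inner_sub_right, real_inner_smul_left, real_inner_smul_right, huu, hc]
  ring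

/-- `N1` at a field `V = a e + b v` -/
theorem N1_eq (e u V : E 3) (hu : ‖u‖ = 1) :
    N1 e u V = (√((inner ℝ e u : ℝ) ^ 2 * (‖V‖ ^ 2 - (inner ℝ u V : ℝ) ^ 2) +
      ((inner ℝ e V : ℝ) - (inner ℝ u V : ℝ) * (inner ℝ e u : ℝ)) ^ 2) -
      ((inner ℝ e V : ℝ) - (inner ℝ u V : ℝ) * (inner ℝ e u : ℝ))) / (inner ℝ e u : ℝ) ^ 2 := by
  unfold N1
  rw [tg_sq u V hu]
  have : (inner ℝ e (tg u V) : ℝ) = (inner ℝ e V : ℝ) - (inner ℝ u V : ℝ) * (inner ℝ e u : ℝ) := by
    unfold tg
    rw [inner_sub_right, real_inner_smul_right]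
  rw [this]

theorem inner_b0_sp (b : OrthonormalBasis (Fin 3) ℝ (E 3)) (ω φ : ℝ) :
    (inner ℝ (b 0) (sp b ω φ) : ℝ) = Real.cos φ := by
  unfold sp
  rw [inner_add_right, real_inner_smul_right, real_inner_smul_right, inner_b0_wv, inner_bb]
  simp

theorem inner_b1_sp (b : OrthonormalBasis (Fin 3) ℝ (E 3)) (ω φ : ℝ) :
    (inner ℝ (b 1) (sp b ω φ) : ℝ) = Real.sin φ * Real.cos ω := by
  unfold sp wv
  simp only [inner_add_right, real_inner_smul_right, inner_bb]
  simp

theorem sin_cos_sq : ∫ φ in (0:ℝ)..Real.pi, Real.sin φ * (Real.cos φ ^ 2 / 2) = 1 / 3 := by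
  have h : ∀ φ ∈ uIcc (0:ℝ) Real.pi, HasDerivAt (fun φ => -(Real.cos φ ^ 3 / 6))
      (Real.sin φ * (Real.cos φ ^ 2 / 2)) φ := by
    intro φ _
    have h1 := (((Real.hasDerivAt_cos φ).pow 3).div_const 6).neg
    exact h1.congr_deriv (by push_cast; ring)
  rw [intervalIntegral.integral_eq_sub_of_hasDerivAt h
    (Continuous.intervalIntegrable (by fun_prop) _ _)]
  simp
  norm_num

/-- [FB-L0] -/
theorem s_L0 : S_L0 := by
  intro e v he hv
  have hee : (inner ℝ e e : ℝ) = 1 := by rw [real_inner_self_eq_norm_sq, he]; norm_num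
  have hcont : Continuous (fun u : E 3 => qf v v 0 u • e + qf 0 0 0 u • (0 : E 3)) := by
    unfold qf; fun_prop
  have hm := N1_meas e _ hcont
  have hpt : ∀ u : E 3, ‖u‖ = 1 → N1 e u (qf v v 0 u • e + qf 0 0 0 u • (0 : E 3)) ≤
      (inner ℝ v u : ℝ) ^ 2 / 2 := by
    intro u hu
    rw [N1_eq _ _ _ hu, smul_zero, add_zero]
    set c : ℝ := inner ℝ e u with hc
    set q : ℝ := qf v v 0 u with hq
    have hqe : q = (inner ℝ v u : ℝ) ^ 2 := by rw [hq]; unfold qf; ring
    have hq0 : 0 ≤ q := by rw [hqe]; positivity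
    rw [← hqe]
    have h1 : (inner ℝ u (q • e) : ℝ) = q * c := by
      rw [real_inner_smul_right, real_inner_comm, ← hc]
    have h2 : (inner ℝ e (q • e) : ℝ) = q := by rw [real_inner_smul_right, hee, mul_one]
    have h3 : ‖q • e‖ ^ 2 = q ^ 2 := by rw [norm_smul, he, mul_one, Real.norm_eq_abs, sq_abs]
    rw [h1, h2, h3]
    by_cases h0 : c = 0
    · rw [h0]; simp; positivity
    · have hc1 : c ^ 2 ≤ 1 := by
        have := abs_real_inner_le_norm e u
        rw [he, hu, mul_one, ← hc] at this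
        rw [← sq_abs]
        nlinarith [abs_nonneg c]
      have hcp : 0 < c ^ 2 := by positivity
      set s : ℝ := √(1 - c ^ 2) with hs
      have hs0 : 0 ≤ s := Real.sqrt_nonneg _
      have hs2 : s ^ 2 = 1 - c ^ 2 := Real.sq_sqrt (by linarith)
      have h4 : c ^ 2 * (q ^ 2 - (q * c) ^ 2) + (q - q * c * c) ^ 2 = (q * s) ^ 2 := by
        rw [mul_pow q s, hs2]; ring
      rw [h4, Real.sqrt_sq (by positivity), div_le_iff₀ hcp]
      have h5 : q - q * c * c = q * s ^ 2 := by rw [hs2]; ring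
      have h6 : c ^ 2 = 1 - s ^ 2 := by rw [hs2]; ring
      rw [h5, h6]
      nlinarith [mul_nonneg hq0 (sq_nonneg (1 - s))]
  obtain ⟨b, g, hb0, -, -⟩ := frame v v hv hv
  have H := lint_le b (fun u => (inner ℝ v u : ℝ) ^ 2 / 2) (Continuous.measurable (by fun_prop))
    (1 / 3) (by norm_num) (by
      intro ω
      have h1 : ∀ φ : ℝ, (inner ℝ v (sp b ω φ) : ℝ) = Real.cos φ := by
        intro φ; rw [← hb0]; exact inner_b0_sp b ω φ
      simp_rw [h1]
      rw [← sin_cos_sq, intervalIntegral.integral_of_le Real.pi_pos.le,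
        integral_Ioc_eq_integral_Ioo, ofReal_integral_eq_lintegral_ofReal]
      · exact (Continuous.integrableOn_Icc (by fun_prop)).mono_set Ioo_subset_Icc_self
      · refine (ae_restrict_iff' measurableSet_Ioo).2 (ae_of_all _ fun φ hφ => ?_)
        have := Real.sin_nonneg_of_nonneg_of_le_pi hφ.1.le hφ.2.le
        show (0:ℝ) ≤ _
        positivity)
  have H2 : ∫⁻ u : Sph 3, ENNReal.ofReal (N1 e (u : E 3) (qf v v 0 (u : E 3) • e +
      qf 0 0 0 (u : E 3) • (0 : E 3))) ∂(sig 3) ≤ ENNReal.ofReal (2 * Real.pi / 3) := by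
    refine (lintegral_mono fun u : Sph 3 => ENNReal.ofReal_le_ofReal
      (hpt (u : E 3) (norm_eq_of_mem_sphere u))).trans
      (H.trans (le_of_eq ?_))
    congr 1
    ring
  exact fin_of _ hm (fun u => N1_nonneg _ _ _) _ (by positivity) H2

end Pool.Agent.L7h56.FB
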