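import Pool.Agent.L7h64.FB.Stm

/-! Project FB: spherical coordinates in `ℝ³` about an orthonormal basis (helper56). -/

set_option autoImplicit false
set_option linter.unusedVariables false

open MeasureTheory Metric Set Filter Topology Module
open scoped ENNReal

namespace Pool.Agent.L7h56.FB

open Pool.Agent.H241R3.FV (E Sph sig)

/-- polar coordinates in `E 3` -/
theorem polar3 (f : E 3 → ℝ≥0∞) (hf : Measurable f) :
    ∫⁻ x, f x = ∫⁻ θ : Sph 3,
      (∫⁻ r in Ioi (0:ℝ), ENNReal.ofReal (r ^ 2) * f (r • (θ : E 3))) ∂(sig 3) := by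
  have hfr : finrank ℝ (E 3) - 1 = 2 := by
    rw [finrank_euclideanSpace_fin]
  have h1 : ∫⁻ x, f x = ∫⁻ x : ({0}ᶜ : Set (E 3)), f x ∂((volume : Measure (E 3)).comap (↑)) := by
    rw [lintegral_subtype_comap (measurableSet_singleton (0 : E 3)).compl,
      restrict_compl_singleton]
  have hmp := (volume : Measure (E 3)).measurePreserving_homeomorphUnitSphereProd
  rw [hfr] at hmp
  have h2 := hmp.lintegral_comp_emb (Homeomorph.measurableEmbedding _)
    (fun p => f ((p.2 : ℝ) • (p.1 : E 3)))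
  have h3 : ∀ x : ({0}ᶜ : Set (E 3)), f (((homeomorphUnitSphereProd (E 3) x).2 : ℝ) •
      ((homeomorphUnitSphereProd (E 3) x).1 : E 3)) = f x := by
    intro x
    have := (homeomorphUnitSphereProd (E 3)).symm_apply_apply x
    have h4 : ((homeomorphUnitSphereProd (E 3) x).2 : ℝ) •
        ((homeomorphUnitSphereProd (E 3) x).1 : E 3) = x := by
      conv_rhs => rw [← this]
      rfl
    simp only [h4]
  simp only [h3] at h2
  have hm2 : Measurable (fun p : sphere (0 : E 3) 1 × Ioi (0:ℝ) =>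
      f ((p.2 : ℝ) • (p.1 : E 3))) := by
    apply hf.comp
    exact (measurable_subtype_coe.comp measurable_snd).smul
      (measurable_subtype_coe.comp measurable_fst)
  rw [h1, h2, lintegral_prod _ hm2.aemeasurable]
  refine lintegral_congr fun θ => ?_
  unfold Measure.volumeIoiPow
  have hm3 : Measurable (fun r : Ioi (0:ℝ) => f ((r : ℝ) • (θ : E 3))) :=
    hf.comp (measurable_subtype_coe.smul_const _)
  rw [lintegral_withDensity_eq_lintegral_mul _ (by fun_prop) hm3]
  rw [← lintegral_subtype_comap measurableSet_Ioi]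
  rfl

/-- volume of `E 3` in an orthonormal basis -/
theorem basis3 (b : OrthonormalBasis (Fin 3) ℝ (E 3)) (f : E 3 → ℝ≥0∞) (hf : Measurable f) :
    ∫⁻ x, f x = ∫⁻ t : ℝ, ∫⁻ p : ℝ × ℝ, f (t • b 0 + (p.1 • b 1 + p.2 • b 2)) := by
  have hm : Measurable (fun w : Fin 3 → ℝ => f (w 0 • b 0 + (w 1 • b 1 + w 2 • b 2))) := by
    apply hf.comp
    fun_prop
  have h1 : ∫⁻ x, f x = ∫⁻ w : Fin 3 → ℝ, f (w 0 • b 0 + (w 1 • b 1 + w 2 • b 2)) := by
    refine (b.measurePreserving_repr_symm.lintegral_comp hf).symm.trans ?_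
    refine ((PiLp.volume_preserving_toLp (Fin 3)).lintegral_comp
        (hf.comp b.measurePreserving_repr_symm.measurable)).symm.trans ?_
    refine lintegral_congr fun w => ?_
    show f (b.repr.symm (WithLp.toLp 2 w)) = _
    congr 1
    have := b.sum_repr_symm (WithLp.toLp 2 w)
    rw [← this, Fin.sum_univ_three, add_assoc]
  rw [h1]
  refine ((volume_preserving_piFinSuccAbove (fun _ : Fin 3 => ℝ) 0).symm.lintegral_comp
    hm).symm.trans ?_
  rw [show (volume : Measure (ℝ × (Fin 2 → ℝ))) = (volume : Measure ℝ).prod volume from rfl]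
  refine (lintegral_prod _ (hm.comp (MeasurableEquiv.measurable _)).aemeasurable).trans ?_
  refine lintegral_congr fun t => ?_
  have hm2 : Measurable (fun p : ℝ × ℝ => f (t • b 0 + (p.1 • b 1 + p.2 • b 2))) := by
    apply hf.comp
    fun_prop
  refine Eq.trans ?_ ((volume_preserving_finTwoArrow ℝ).lintegral_comp hm2)
  refine lintegral_congr fun w => ?_
  rfl

/-- Tonelli on polar coordinates -/
theorem polar2 (f : ℝ × ℝ → ℝ≥0∞) (hf : Measurable f) :
    ∫⁻ p, f p = ∫⁻ ω in Ioo (-Real.pi) Real.pi, ∫⁻ ρ in Ioi (0:ℝ),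
      ENNReal.ofReal ρ * f (ρ * Real.cos ω, ρ * Real.sin ω) := by
  rw [← lintegral_comp_polarCoord_symm f]
  have ht : polarCoord.target = Ioi (0:ℝ) ×ˢ Ioo (-Real.pi) Real.pi := rfl
  rw [ht, show (volume : Measure (ℝ × ℝ)) = (volume : Measure ℝ).prod volume from rfl,
    ← Measure.prod_restrict]
  have hm : Measurable (fun p : ℝ × ℝ => ENNReal.ofReal p.1 •
      f (p.1 * Real.cos p.2, p.1 * Real.sin p.2)) := by
    have : Measurable (fun p : ℝ × ℝ => f (p.1 * Real.cos p.2, p.1 * Real.sin p.2)) := by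
      apply hf.comp
      fun_prop
    exact (by fun_prop : Measurable (fun p : ℝ × ℝ => ENNReal.ofReal p.1)).smul this
  exact lintegral_prod_symm _ hm.aemeasurable

/-- the vector `cos ω b₁ + sin ω b₂` -/
noncomputable def wv (b : OrthonormalBasis (Fin 3) ℝ (E 3)) (ω : ℝ) : E 3 :=
  Real.cos ω • b 1 + Real.sin ω • b 2

/-- the point with spherical coordinates `φ, ω` -/
noncomputable def sp (b : OrthonormalBasis (Fin 3) ℝ (E 3)) (ω φ : ℝ) : E 3 :=
  Real.cos φ • b 0 + Real.sin φ • wv b ω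

theorem inner_bb (b : OrthonormalBasis (Fin 3) ℝ (E 3)) (i j : Fin 3) :
    (inner ℝ (b i) (b j) : ℝ) = if i = j then 1 else 0 := orthonormal_iff_ite.1 b.orthonormal i j

theorem inner_wv_wv (b : OrthonormalBasis (Fin 3) ℝ (E 3)) (ω : ℝ) :
    (inner ℝ (wv b ω) (wv b ω) : ℝ) = 1 := by
  unfold wv
  simp only [inner_add_left, inner_add_right, real_inner_smul_left, real_inner_smul_right,
    inner_bb]
  have := Real.sin_sq_add_cos_sq ω
  simp
  nlinarith

theorem inner_b0_wv (b : OrthonormalBasis (Fin 3) ℝ (E 3)) (ω : ℝ) :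
    (inner ℝ (b 0) (wv b ω) : ℝ) = 0 := by
  unfold wv
  simp only [inner_add_left, inner_add_right, real_inner_smul_left, real_inner_smul_right,
    inner_bb]
  simp

theorem inner_sp_sp (b : OrthonormalBasis (Fin 3) ℝ (E 3)) (ω φ : ℝ) :
    (inner ℝ (sp b ω φ) (sp b ω φ) : ℝ) = 1 := by
  unfold sp
  have h1 : (inner ℝ (wv b ω) (b 0) : ℝ) = 0 := by rw [real_inner_comm, inner_b0_wv]
  simp only [inner_add_left, inner_add_right, real_inner_smul_left, real_inner_smul_right,
    inner_wv_wv, inner_b0_wv, h1]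
  have h2 : (inner ℝ (b 0) (b 0) : ℝ) = 1 := by rw [inner_bb]; simp
  have := Real.sin_sq_add_cos_sq φ
  rw [h2]
  nlinarith

theorem norm_sp (b : OrthonormalBasis (Fin 3) ℝ (E 3)) (ω φ : ℝ) : ‖sp b ω φ‖ = 1 := by
  have h := inner_sp_sp b ω φ
  rw [real_inner_self_eq_norm_sq] at h
  nlinarith [norm_nonneg (sp b ω φ), sq_nonneg (‖sp b ω φ‖ - 1)]

/-- spherical coordinates -/
theorem sph_coord (b : OrthonormalBasis (Fin 3) ℝ (E 3)) (G : E 3 → ℝ≥0∞) (hG : Measurable G) :
    ∫⁻ u : Sph 3, G (u : E 3) ∂(sig 3) =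
      ∫⁻ ω in Ioo (-Real.pi) Real.pi, ∫⁻ φ in Ioo 0 Real.pi,
        ENNReal.ofReal (Real.sin φ) * G (sp b ω φ) := by
  set k : ℝ≥0∞ := ∫⁻ r in Ioi (0:ℝ), ENNReal.ofReal (r ^ 2) * (Iio (1:ℝ)).indicator 1 r with hk
  have hIm : Measurable ((Iio (1:ℝ)).indicator (1 : ℝ → ℝ≥0∞)) :=
    measurable_one.indicator measurableSet_Iio
  -- the test functions
  have hf : ∀ G : E 3 → ℝ≥0∞, Measurable G → Measurable
      ((ball (0 : E 3) 1).indicator (fun z => G (‖z‖⁻¹ • z))) := by
    intro G hG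
    refine Measurable.indicator ?_ measurableSet_ball
    exact hG.comp (by fun_prop)
  have hfr : ∀ G : E 3 → ℝ≥0∞, ∀ u : E 3, ‖u‖ = 1 → ∀ r ∈ Ioi (0:ℝ),
      (ball (0 : E 3) 1).indicator (fun z => G (‖z‖⁻¹ • z)) (r • u) =
        (Iio (1:ℝ)).indicator 1 r * G u := by
    intro G u hu r hr
    have hr' : (0:ℝ) < r := hr
    have hn : ‖r • u‖ = r := by rw [norm_smul, hu, mul_one, Real.norm_of_nonneg hr'.le]
    by_cases h : r < 1
    · rw [indicator_of_mem (by rw [mem_ball_zero_iff, hn]; exact h),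
        indicator_of_mem (show r ∈ Iio (1:ℝ) from h), Pi.one_apply, one_mul, hn, smul_smul,
        inv_mul_cancel₀ hr'.ne', one_smul]
    · rw [indicator_of_notMem (by rw [mem_ball_zero_iff, hn]; exact h),
        indicator_of_notMem (show r ∉ Iio (1:ℝ) from h), zero_mul]
  have hL : ∀ G : E 3 → ℝ≥0∞, Measurable G →
      ∫⁻ x, (ball (0 : E 3) 1).indicator (fun z => G (‖z‖⁻¹ • z)) x =
        k * ∫⁻ u : Sph 3, G (u : E 3) ∂(sig 3) := by
    intro G hG
    rw [polar3 _ (hf G hG)]
    refine Eq.trans ?_ (lintegral_const_mul k (hG.comp measurable_subtype_coe))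
    refine lintegral_congr fun u => ?_
    have hu : ‖(u : E 3)‖ = 1 := by simp
    rw [hk, ← lintegral_mul_const _ (by fun_prop)]
    refine setLIntegral_congr_fun measurableSet_Ioi fun r hr => ?_
    show ENNReal.ofReal (r ^ 2) * _ = _
    rw [hfr G u hu r hr, mul_assoc]
  have hk0 : k ≠ 0 := by
    intro h0
    have h1 := hL 1 measurable_one
    rw [h0, zero_mul] at h1
    have h2 : ∫⁻ x, (ball (0 : E 3) 1).indicator (fun z => (1 : E 3 → ℝ≥0∞) (‖z‖⁻¹ • z)) x =
        volume (ball (0 : E 3) 1) := by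
      have : (fun z : E 3 => (1 : E 3 → ℝ≥0∞) (‖z‖⁻¹ • z)) = 1 := rfl
      rw [this, lintegral_indicator_one measurableSet_ball]
    rw [h2] at h1
    exact (measure_ball_pos volume (0 : E 3) one_pos).ne' h1
  have hkt : k ≠ ⊤ := by
    have h1 : k ≤ ∫⁻ r, (Ioo (0:ℝ) 1).indicator 1 r := by
      rw [hk, ← lintegral_indicator measurableSet_Ioi]
      refine lintegral_mono fun r => ?_
      by_cases h : r ∈ Ioo (0:ℝ) 1
      · rw [indicator_of_mem h, indicator_of_mem (show r ∈ Ioi (0:ℝ) from h.1),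
          indicator_of_mem (show r ∈ Iio (1:ℝ) from h.2), Pi.one_apply, mul_one]
        rw [← ENNReal.ofReal_one]
        apply ENNReal.ofReal_le_ofReal
        have := h.1; have := h.2; nlinarith
      · by_cases h' : r ∈ Ioi (0:ℝ)
        · rw [indicator_of_mem h', indicator_of_notMem (show r ∉ Iio (1:ℝ) from fun h2 =>
            h ⟨h', h2⟩), mul_zero]
          exact zero_le
        · rw [indicator_of_notMem h']
          exact zero_le
    refine ne_top_of_le_ne_top ?_ h1
    rw [lintegral_indicator_one measurableSet_Ioo]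
    simp
  -- the other side
  have hR : ∫⁻ x, (ball (0 : E 3) 1).indicator (fun z => G (‖z‖⁻¹ • z)) x =
      k * ∫⁻ ω in Ioo (-Real.pi) Real.pi, ∫⁻ φ in Ioo 0 Real.pi,
        ENNReal.ofReal (Real.sin φ) * G (sp b ω φ) := by
    set f := (ball (0 : E 3) 1).indicator (fun z => G (‖z‖⁻¹ • z)) with hfd
    have hfm : Measurable f := hf G hG
    rw [basis3 b f hfm]
    have h1 : ∀ t : ℝ, ∫⁻ p : ℝ × ℝ, f (t • b 0 + (p.1 • b 1 + p.2 • b 2)) =
        ∫⁻ ω in Ioo (-Real.pi) Real.pi, ∫⁻ ρ : ℝ, ENNReal.ofReal ρ * f (t • b 0 + ρ • wv b ω) := by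
      intro t
      have hm0 : Measurable (fun p : ℝ × ℝ => f (t • b 0 + (p.1 • b 1 + p.2 • b 2))) :=
        hfm.comp (by fun_prop)
      rw [polar2 _ hm0]
      refine lintegral_congr fun ω => ?_
      rw [← lintegral_indicator measurableSet_Ioi]
      refine lintegral_congr fun ρ => ?_
      by_cases h : ρ ∈ Ioi (0:ℝ)
      · rw [indicator_of_mem h]
        congr 3
        unfold wv
        rw [smul_add, smul_smul, smul_smul]
      · rw [indicator_of_notMem h, ENNReal.ofReal_of_nonpos (not_lt.1 h), zero_mul]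
    simp_rw [h1]
    have hwm : Measurable (fun ω : ℝ => wv b ω) := by unfold wv; fun_prop
    have hm3 : Measurable (fun q : (ℝ × ℝ) × ℝ =>
        ENNReal.ofReal q.2 * f (q.1.1 • b 0 + q.2 • wv b q.1.2)) := by
      refine Measurable.mul (by fun_prop) (hfm.comp ?_)
      exact ((measurable_fst.comp measurable_fst).smul_const _).add
        (measurable_snd.smul (hwm.comp (measurable_snd.comp measurable_fst)))
    rw [lintegral_lintegral_swap hm3.lintegral_prod_right'.aemeasurable,
      ← lintegral_const_mul'' _ ?_]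
    swap
    · refine Measurable.aemeasurable ?_
      have hm4 : Measurable (fun q : ℝ × ℝ => ENNReal.ofReal (Real.sin q.2) * G (sp b q.1 q.2)) := by
        refine Measurable.mul (by fun_prop) (hG.comp ?_)
        unfold sp
        exact ((Real.measurable_cos.comp measurable_snd).smul_const _).add
          ((Real.measurable_sin.comp measurable_snd).smul (hwm.comp measurable_fst))
      exact hm4.lintegral_prod_right'
    refine lintegral_congr fun ω => ?_
    have hm5 : Measurable (fun p : ℝ × ℝ => ENNReal.ofReal p.2 * f (p.1 • b 0 + p.2 • wv b ω)) := by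
      refine Measurable.mul (by fun_prop) (hfm.comp (by fun_prop))
    have h2 : ∫⁻ t : ℝ, ∫⁻ ρ : ℝ, ENNReal.ofReal ρ * f (t • b 0 + ρ • wv b ω) =
        ∫⁻ p : ℝ × ℝ, ENNReal.ofReal p.2 * f (p.1 • b 0 + p.2 • wv b ω) :=
      (lintegral_prod _ hm5.aemeasurable).symm
    rw [h2, polar2 _ hm5]
    have h3 : ∀ φ : ℝ, ∫⁻ r in Ioi (0:ℝ), ENNReal.ofReal r * (ENNReal.ofReal (r * Real.sin φ) *
        f ((r * Real.cos φ) • b 0 + (r * Real.sin φ) • wv b ω)) =
        k * (ENNReal.ofReal (Real.sin φ) * G (sp b ω φ)) := by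
      intro φ
      rw [hk, ← lintegral_mul_const _ (by fun_prop)]
      refine setLIntegral_congr_fun measurableSet_Ioi fun r hr => ?_
      have hr' : (0:ℝ) < r := hr
      have h4 : (r * Real.cos φ) • b 0 + (r * Real.sin φ) • wv b ω = r • sp b ω φ := by
        unfold sp
        rw [smul_add, smul_smul, smul_smul]
      show ENNReal.ofReal r * _ = _
      rw [h4, hfd, hfr G _ (norm_sp b ω φ) r hr, ENNReal.ofReal_mul hr'.le, sq,
        ENNReal.ofReal_mul hr'.le]
      ring
    simp_rw [h3]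
    rw [lintegral_const_mul' _ _ hkt]
    congr 1
    have h5 : Ioo (0:ℝ) Real.pi ⊆ Ioo (-Real.pi) Real.pi := fun x hx =>
      ⟨by have := Real.pi_pos; linarith [hx.1], hx.2⟩
    rw [← lintegral_indicator measurableSet_Ioo, ← lintegral_indicator measurableSet_Ioo]
    refine lintegral_congr fun φ => ?_
    by_cases h : φ ∈ Ioo 0 Real.pi
    · rw [indicator_of_mem h, indicator_of_mem (h5 h)]
    · rw [indicator_of_notMem h]
      by_cases h' : φ ∈ Ioo (-Real.pi) Real.pi
      · rw [indicator_of_mem h']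
        have h6 : φ ≤ 0 := by
          by_contra h7
          exact h ⟨not_le.1 h7, h'.2⟩
        rw [ENNReal.ofReal_of_nonpos (Real.sin_nonpos_of_nonpos_of_neg_pi_le h6 h'.1.le), zero_mul]
      · rw [indicator_of_notMem h']
  exact (ENNReal.mul_right_inj hk0 hkt).1 ((hL G hG).symm.trans hR)

end Pool.Agent.L7h56.FB
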