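import Pool.Agent.L7h56.FB.L0

/-! Project FB: the field `-(⟨e,u⟩⟨v,u⟩ - ⟨e,v⟩/2) v` (S_U) (helper56). -/

set_option autoImplicit false
set_option linter.unusedVariables false

open MeasureTheory Metric Set Filter Topology Module
open scoped ENNReal

namespace Pool.Agent.L7h56.FB

open Pool.Agent.H241R3.FV (E Sph sig)
open Pool.Agent.L7h64.FB

/-- the field -/
noncomputable def VU (e v u : E 3) : E 3 :=
  qf (-e) v ((inner ℝ e v : ℝ) / 2) u • v + qf 0 0 0 u • (0 : E 3)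

theorem VU_neg (e v u : E 3) : VU e (-v) u = VU e v u := by
  unfold VU qf
  simp only [inner_neg_left, inner_neg_right, smul_zero, add_zero, smul_neg, ← neg_smul]
  congr 1
  ring

/-- the values of `N1` -/
theorem N1_VU (e v u : E 3) (he : ‖e‖ = 1) (hv : ‖v‖ = 1) (hu : ‖u‖ = 1) (c y γ m : ℝ)
    (h1 : (inner ℝ e u : ℝ) = c) (h2 : (inner ℝ v u : ℝ) = y) (h3 : (inner ℝ e v : ℝ) = γ)
    (hm : m = 2 * c * y - γ) :
    N1 e u (VU e v u) = (√(m ^ 2 / 4 * (c ^ 2 - γ * m)) + m / 2 * (γ - y * c)) / c ^ 2 := by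
  have hvv : (inner ℝ v v : ℝ) = 1 := by rw [real_inner_self_eq_norm_sq, hv]; norm_num
  have huu : (inner ℝ u u : ℝ) = 1 := by rw [real_inner_self_eq_norm_sq, hu]; norm_num
  have huv : (inner ℝ u v : ℝ) = y := by rw [real_inner_comm]; exact h2
  have hV : VU e v u = (-(m / 2)) • v := by
    unfold VU qf
    rw [smul_zero, add_zero]
    congr 1
    rw [inner_neg_left, h1, h2, h3, hu, hm]
    ring
  rw [N1_eq _ _ _ hu, hV]
  have k1 : (inner ℝ u ((-(m / 2)) • v) : ℝ) = -(m / 2) * y := by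
    rw [real_inner_smul_right, huv]
  have k2 : (inner ℝ e ((-(m / 2)) • v) : ℝ) = -(m / 2) * γ := by
    rw [real_inner_smul_right, h3]
  have k3 : ‖(-(m / 2)) • v‖ ^ 2 = m ^ 2 / 4 := by
    rw [norm_smul, hv, mul_one, Real.norm_eq_abs, sq_abs]; ring
  rw [k1, k2, k3, h1]
  congr 1
  have k4 : c ^ 2 * (m ^ 2 / 4 - (-(m / 2) * y) ^ 2) + (-(m / 2) * γ - -(m / 2) * y * c) ^ 2 =
      m ^ 2 / 4 * (c ^ 2 - γ * m) := by
    rw [hm]; ring
  rw [k4]
  ring

/-- the integrand on a great circle, `2 α + χ` with positive sine -/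
noncomputable def Pp (χ α : ℝ) : ℝ :=
  Real.sin (2 * α + χ) * Real.sin α ^ 2 / (2 * (1 + Real.cos (α + χ)))

/-- the integrand on a great circle, `2 α + χ` with negative sine -/
noncomputable def Pm (χ α : ℝ) : ℝ :=
  -(Real.sin (2 * α + χ) * Real.sin α ^ 2) / (2 * (1 - Real.cos (α + χ)))

/-- the values in polar coordinates about `v` -/
theorem val_U (e v u : E 3) (he : ‖e‖ = 1) (hv : ‖v‖ = 1) (hu : ‖u‖ = 1) (κ χ α : ℝ)
    (hκ : 0 < κ) (hα : 0 ≤ Real.sin α) (h1 : (inner ℝ e u : ℝ) = κ * Real.sin (α + χ))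
    (h2 : (inner ℝ v u : ℝ) = Real.cos α) (h3 : (inner ℝ e v : ℝ) = κ * Real.sin χ) :
    (0 ≤ Real.sin (2 * α + χ) → 0 ≤ 1 + Real.cos (α + χ) →
      Real.sin α * N1 e u (VU e v u) ≤ Pp χ α) ∧
    (Real.sin (2 * α + χ) ≤ 0 → 0 ≤ 1 - Real.cos (α + χ) →
      Real.sin α * N1 e u (VU e v u) ≤ Pm χ α) := by
  set s := Real.sin (α + χ) with hs
  set C := Real.cos (α + χ) with hC
  have hsC : s ^ 2 + C ^ 2 = 1 := Real.sin_sq_add_cos_sq _
  have hχ : Real.sin χ = s * Real.cos α - C * Real.sin α := by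
    rw [hs, hC, ← Real.sin_sub]; congr 1; ring
  have hm1 : Real.sin (2 * α + χ) = s * Real.cos α + C * Real.sin α := by
    rw [hs, hC, ← Real.sin_add]; congr 1; ring
  have hα2 := Real.sin_sq_add_cos_sq α
  set S := Real.sin (2 * α + χ) with hS
  have hN := N1_VU e v u he hv hu _ _ _ (κ * S) h1 h2 h3 (by rw [hm1, hχ]; ring)
  have k1 : (κ * s) ^ 2 - κ * Real.sin χ * (κ * S) = (κ * Real.sin α) ^ 2 := by
    rw [hm1, hχ]
    linear_combination (κ ^ 2 * s ^ 2 * -1) * hα2 + (κ ^ 2 * Real.sin α ^ 2) * hsC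
  have k2 : κ * Real.sin χ - Real.cos α * (κ * s) = -(κ * (Real.sin α * C)) := by
    rw [hχ]; ring
  have k3 : √((κ * S) ^ 2 / 4 * (κ * Real.sin α) ^ 2) = κ * |S| / 2 * (κ * Real.sin α) := by
    have : (κ * S) ^ 2 / 4 * (κ * Real.sin α) ^ 2 = (κ * |S| / 2 * (κ * Real.sin α)) ^ 2 := by
      rw [← sq_abs (κ * S), abs_mul, abs_of_pos hκ]; ring
    rw [this, Real.sqrt_sq (by positivity)]
  rw [hN, k1, k2, k3]
  by_cases hs0 : s = 0
  · rw [hs0]
    simp only [mul_zero, ne_eq, OfNat.ofNat_ne_zero, not_false_eq_true, zero_pow, div_zero]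
    constructor
    · intro h5 h6
      unfold Pp
      positivity
    · intro h5 h6
      unfold Pm
      apply div_nonneg
      · have := mul_nonneg (neg_nonneg.2 h5) (sq_nonneg (Real.sin α))
        linarith
      · linarith
  · have hs2 : 0 < s ^ 2 := by positivity
    constructor
    · intro h5 h6
      rw [abs_of_nonneg h5]
      apply le_of_eq
      unfold Pp
      rw [← hC, ← hS]
      have h7 : 1 + C ≠ 0 := by
        intro h
        apply hs0
        have : C = -1 := by linarith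
        rw [this] at hsC
        nlinarith
      have h8 : s ^ 2 = (1 - C) * (1 + C) := by linarith
      have h9 : 1 - C ≠ 0 := by
        intro h; rw [h, zero_mul] at h8; exact hs2.ne' h8
      rw [mul_pow, h8]
      field_simp
      ring
    · intro h5 h6
      rw [abs_of_nonpos h5]
      apply le_of_eq
      unfold Pm
      rw [← hC, ← hS]
      have h8 : s ^ 2 = (1 - C) * (1 + C) := by linarith
      have h9 : 1 - C ≠ 0 := by
        intro h; rw [h, zero_mul] at h8; exact hs2.ne' h8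
      have h7 : 1 + C ≠ 0 := by
        intro h; rw [h, mul_zero] at h8; exact hs2.ne' h8
      rw [mul_pow, h8]
      field_simp
      ring

/-! ### the pieces of the great circle -/

theorem piece (f P : ℝ → ℝ) (s t : ℝ) (hst : s ≤ t) (hP : ContinuousOn P (Icc s t))
    (h0 : ∀ α ∈ Ioc s t, 0 ≤ P α) (h : ∀ α ∈ Ioc s t, f α ≤ P α) :
    ∫⁻ α in Ioc s t, ENNReal.ofReal (f α) ≤ ENNReal.ofReal (∫ α in s..t, P α) := by
  rw [intervalIntegral.integral_of_le hst, ofReal_integral_eq_lintegral_ofReal]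
  · refine lintegral_mono_ae ?_
    filter_upwards [ae_restrict_mem measurableSet_Ioc] with α hα
    exact ENNReal.ofReal_le_ofReal (h α hα)
  · exact (hP.integrableOn_Icc).mono_set Ioc_subset_Icc_self
  · exact (ae_restrict_iff' measurableSet_Ioc).2 (ae_of_all _ h0)

theorem piece_nonneg (P : ℝ → ℝ) (s t : ℝ) (hst : s ≤ t) (h0 : ∀ α ∈ Ioc s t, 0 ≤ P α) :
    0 ≤ ∫ α in s..t, P α := by
  rw [intervalIntegral.integral_of_le hst]
  exact integral_nonneg_of_ae ((ae_restrict_iff' measurableSet_Ioc).2 (ae_of_all _ h0))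

theorem one_add_cos (x : ℝ) : 1 + Real.cos x = 2 * Real.cos (x / 2) ^ 2 := by
  have := Real.cos_sq (x / 2)
  rw [show 2 * (x / 2) = x by ring] at this
  rw [this]; ring

theorem one_sub_cos (x : ℝ) : 1 - Real.cos x = 2 * Real.sin (x / 2) ^ 2 := by
  have := Real.cos_sq (x / 2)
  have h2 := Real.sin_sq_add_cos_sq (x / 2)
  rw [show 2 * (x / 2) = x by ring] at this
  linarith

theorem one_sub_cos_ne (x : ℝ) (h0 : 0 < x) (h1 : x < 2 * Real.pi) : 1 - Real.cos x ≠ 0 := by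
  rw [one_sub_cos]
  have := Real.sin_pos_of_pos_of_lt_pi (show 0 < x / 2 by linarith) (by linarith)
  positivity

theorem one_add_cos_ne (x : ℝ) (h0 : 0 < x) (h1 : x < Real.pi) : 1 + Real.cos x ≠ 0 := by
  rw [one_add_cos]
  have := Real.cos_pos_of_mem_Ioo (show x / 2 ∈ Ioo (-(Real.pi / 2)) (Real.pi / 2) from
    ⟨by linarith [Real.pi_pos], by linarith⟩)
  positivity

theorem one_add_cos_ne' (x : ℝ) (h0 : Real.pi < x) (h1 : x < 2 * Real.pi) :
    1 + Real.cos x ≠ 0 := by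
  rw [one_add_cos]
  have := Real.cos_neg_of_pi_div_two_lt_of_lt (show Real.pi / 2 < x / 2 by linarith)
    (by linarith [Real.pi_pos])
  have h2 : Real.cos (x / 2) ≠ 0 := this.ne
  positivity

/-- the first integral of `WW` -/
noncomputable def W1 (χ : ℝ) : ℝ :=
  ∫ β in χ..(Real.pi + χ) / 2, Real.sin (2 * β - χ) * Real.sin (β - χ) ^ 2 / (1 + Real.cos β)

/-- the second integral of `WW` -/
noncomputable def W2 (χ : ℝ) : ℝ :=
  ∫ β in (Real.pi + χ) / 2..Real.pi, Real.sin (2 * β - χ) * Real.sin (β - χ) ^ 2 /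
    (1 - Real.cos β)

theorem int_A (χ : ℝ) : ∫ α in (0:ℝ)..(Real.pi - χ) / 2, Pp χ α = W1 χ / 2 := by
  have h := intervalIntegral.integral_comp_sub_right (a := χ) (b := (Real.pi + χ) / 2) (Pp χ) χ
  rw [show χ - χ = 0 by ring, show (Real.pi + χ) / 2 - χ = (Real.pi - χ) / 2 by ring] at h
  rw [← h]
  unfold W1
  rw [← intervalIntegral.integral_div]
  refine intervalIntegral.integral_congr fun β _ => ?_
  show Pp χ (β - χ) = _
  unfold Pp
  rw [show 2 * (β - χ) + χ = 2 * β - χ by ring, show β - χ + χ = β by ring, div_div]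
  congr 1
  ring

theorem int_B1 (χ : ℝ) : ∫ α in (Real.pi - χ) / 2..Real.pi - χ, Pm χ α = -(W2 χ) / 2 := by
  have h := intervalIntegral.integral_comp_sub_right (a := (Real.pi + χ) / 2) (b := Real.pi)
    (Pm χ) χ
  rw [show (Real.pi + χ) / 2 - χ = (Real.pi - χ) / 2 by ring] at h
  rw [← h]
  unfold W2
  rw [← intervalIntegral.integral_neg, ← intervalIntegral.integral_div]
  refine intervalIntegral.integral_congr fun β _ => ?_
  show Pm χ (β - χ) = _
  unfold Pm
  rw [show 2 * (β - χ) + χ = 2 * β - χ by ring, show β - χ + χ = β by ring, neg_div, neg_div,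
    div_div]
  congr 2
  ring

theorem tr1 (χ β : ℝ) : Real.sin (2 * (2 * Real.pi - χ - β) + χ) =
    Real.sin (2 * β - (Real.pi - χ)) := by
  have h1 : 2 * (2 * Real.pi - χ - β) + χ = -(2 * β + χ) + 2 * Real.pi + 2 * Real.pi := by ring
  have h2 : 2 * β - (Real.pi - χ) = (2 * β + χ) - Real.pi := by ring
  rw [h1, h2, Real.sin_add_two_pi, Real.sin_add_two_pi, Real.sin_neg, Real.sin_sub_pi]

theorem tr2 (χ β : ℝ) : Real.sin (2 * Real.pi - χ - β) ^ 2 =
    Real.sin (β - (Real.pi - χ)) ^ 2 := by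
  have h1 : 2 * Real.pi - χ - β = -(β + χ) + 2 * Real.pi := by ring
  have h2 : β - (Real.pi - χ) = (β + χ) - Real.pi := by ring
  rw [h1, h2, Real.sin_add_two_pi, Real.sin_neg, Real.sin_sub_pi]

theorem tr3 (χ β : ℝ) : Real.cos (2 * Real.pi - χ - β + χ) = Real.cos β := by
  have h1 : 2 * Real.pi - χ - β + χ = -β + 2 * Real.pi := by ring
  rw [h1, Real.cos_add_two_pi, Real.cos_neg]

theorem int_B2 (χ : ℝ) : ∫ α in Real.pi - χ..Real.pi - χ / 2, Pm χ α =
    -(W2 (Real.pi - χ)) / 2 := by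
  have h := intervalIntegral.integral_comp_sub_left (a := (Real.pi + (Real.pi - χ)) / 2)
    (b := Real.pi) (Pm χ) (2 * Real.pi - χ)
  rw [show 2 * Real.pi - χ - Real.pi = Real.pi - χ by ring,
    show 2 * Real.pi - χ - (Real.pi + (Real.pi - χ)) / 2 = Real.pi - χ / 2 by ring] at h
  rw [← h]
  unfold W2
  rw [← intervalIntegral.integral_neg, ← intervalIntegral.integral_div]
  refine intervalIntegral.integral_congr fun β _ => ?_
  show Pm χ (2 * Real.pi - χ - β) = _
  unfold Pm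
  rw [tr1, tr2, tr3, neg_div, neg_div, div_div]
  congr 2
  ring

theorem int_C (χ : ℝ) : ∫ α in Real.pi - χ / 2..Real.pi, Pp χ α = W1 (Real.pi - χ) / 2 := by
  have h := intervalIntegral.integral_comp_sub_left (a := Real.pi - χ)
    (b := (Real.pi + (Real.pi - χ)) / 2) (Pp χ) (2 * Real.pi - χ)
  rw [show 2 * Real.pi - χ - (Real.pi - χ) = Real.pi by ring,
    show 2 * Real.pi - χ - (Real.pi + (Real.pi - χ)) / 2 = Real.pi - χ / 2 by ring] at h
  rw [← h]
  unfold W1
  rw [← intervalIntegral.integral_div]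
  refine intervalIntegral.integral_congr fun β _ => ?_
  show Pp χ (2 * Real.pi - χ - β) = _
  unfold Pp
  rw [tr1, tr2, tr3, div_div]
  congr 1
  ring

/-- the integral over a great circle -/
theorem circ (hW : S_W) (χ : ℝ) (h0 : 0 < χ) (h1 : χ < Real.pi) (f : ℝ → ℝ)
    (hp : ∀ α, 0 ≤ Real.sin α → 0 ≤ Real.sin (2 * α + χ) → f α ≤ Pp χ α)
    (hm : ∀ α, 0 ≤ Real.sin α → Real.sin (2 * α + χ) ≤ 0 → f α ≤ Pm χ α) :
    ∫⁻ α in Ioo 0 Real.pi, ENNReal.ofReal (f α) ≤ ENNReal.ofReal (1 / 3) := by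
  have hpi := Real.pi_pos
  have ha : (0:ℝ) ≤ (Real.pi - χ) / 2 := by linarith
  have hab : (Real.pi - χ) / 2 ≤ Real.pi - χ / 2 := by linarith
  have hb : Real.pi - χ / 2 ≤ Real.pi := by linarith
  have hsub : Ioo 0 Real.pi ⊆ Ioc 0 ((Real.pi - χ) / 2) ∪
      (Ioc ((Real.pi - χ) / 2) (Real.pi - χ / 2) ∪ Ioc (Real.pi - χ / 2) Real.pi) := by
    intro α hα
    rcases le_or_gt α ((Real.pi - χ) / 2) with h | h
    · exact Or.inl ⟨hα.1, h⟩
    · rcases le_or_gt α (Real.pi - χ / 2) with h' | h'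
      · exact Or.inr (Or.inl ⟨h, h'⟩)
      · exact Or.inr (Or.inr ⟨h', hα.2.le⟩)
  have cp : ∀ x : ℝ, 0 ≤ 1 + Real.cos x := fun x => by linarith [Real.neg_one_le_cos x]
  have cm : ∀ x : ℝ, 0 ≤ 1 - Real.cos x := fun x => by linarith [Real.cos_le_one x]
  -- signs
  have s1 : ∀ α ∈ Ioc 0 ((Real.pi - χ) / 2), 0 ≤ Real.sin α ∧ 0 ≤ Real.sin (2 * α + χ) := by
    intro α hα
    exact ⟨Real.sin_nonneg_of_nonneg_of_le_pi hα.1.le (by linarith [hα.2]),
      Real.sin_nonneg_of_nonneg_of_le_pi (by linarith [hα.1]) (by linarith [hα.2])⟩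
  have s2 : ∀ α ∈ Ioc ((Real.pi - χ) / 2) (Real.pi - χ / 2),
      0 ≤ Real.sin α ∧ Real.sin (2 * α + χ) ≤ 0 := by
    intro α hα
    refine ⟨Real.sin_nonneg_of_nonneg_of_le_pi (by linarith [hα.1]) (by linarith [hα.2]), ?_⟩
    have := Real.sin_nonpos_of_nonpos_of_neg_pi_le (x := 2 * α + χ - 2 * Real.pi)
      (by linarith [hα.2]) (by linarith [hα.1])
    rwa [Real.sin_sub_two_pi] at this
  have s3 : ∀ α ∈ Ioc (Real.pi - χ / 2) Real.pi,
      0 ≤ Real.sin α ∧ 0 ≤ Real.sin (2 * α + χ) := by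
    intro α hα
    refine ⟨Real.sin_nonneg_of_nonneg_of_le_pi (by linarith [hα.1]) (by linarith [hα.2]), ?_⟩
    have := Real.sin_nonneg_of_nonneg_of_le_pi (x := 2 * α + χ - 2 * Real.pi)
      (by linarith [hα.1]) (by linarith [hα.2])
    rwa [Real.sin_sub_two_pi] at this
  have np : ∀ α, 0 ≤ Real.sin (2 * α + χ) → 0 ≤ Pp χ α := by
    intro α h
    have := cp (α + χ)
    unfold Pp
    positivity
  have nm : ∀ α, Real.sin (2 * α + χ) ≤ 0 → 0 ≤ Pm χ α := by
    intro α h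
    unfold Pm
    apply div_nonneg
    · have := mul_nonneg (neg_nonneg.2 h) (sq_nonneg (Real.sin α))
      linarith
    · have := cm (α + χ)
      linarith
  -- continuity
  have c1 : ContinuousOn (Pp χ) (Icc 0 ((Real.pi - χ) / 2)) := by
    unfold Pp
    refine ContinuousOn.div (by fun_prop) (by fun_prop) fun α hα => ?_
    exact mul_ne_zero two_ne_zero (one_add_cos_ne _ (by linarith [hα.1]) (by linarith [hα.2]))
  have c2 : ContinuousOn (Pm χ) (Icc ((Real.pi - χ) / 2) (Real.pi - χ / 2)) := by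
    unfold Pm
    refine ContinuousOn.div (by fun_prop) (by fun_prop) fun α hα => ?_
    exact mul_ne_zero two_ne_zero (one_sub_cos_ne _ (by linarith [hα.1]) (by linarith [hα.2]))
  have c3 : ContinuousOn (Pp χ) (Icc (Real.pi - χ / 2) Real.pi) := by
    unfold Pp
    refine ContinuousOn.div (by fun_prop) (by fun_prop) fun α hα => ?_
    exact mul_ne_zero two_ne_zero (one_add_cos_ne' _ (by linarith [hα.1]) (by linarith [hα.2]))
  have p1 := piece f (Pp χ) _ _ ha c1 (fun α hα => np α (s1 α hα).2)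
    (fun α hα => hp α (s1 α hα).1 (s1 α hα).2)
  have p2 := piece f (Pm χ) _ _ hab c2 (fun α hα => nm α (s2 α hα).2)
    (fun α hα => hm α (s2 α hα).1 (s2 α hα).2)
  have p3 := piece f (Pp χ) _ _ hb c3 (fun α hα => np α (s3 α hα).2)
    (fun α hα => hp α (s3 α hα).1 (s3 α hα).2)
  have q1 := piece_nonneg (Pp χ) _ _ ha (fun α hα => np α (s1 α hα).2)
  have q2 := piece_nonneg (Pm χ) _ _ hab (fun α hα => nm α (s2 α hα).2)
  have q3 := piece_nonneg (Pp χ) _ _ hb (fun α hα => np α (s3 α hα).2)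
  have hB : ∫ α in (Real.pi - χ) / 2..Real.pi - χ / 2, Pm χ α =
      -(W2 χ) / 2 + -(W2 (Real.pi - χ)) / 2 := by
    rw [← int_B1, ← int_B2, intervalIntegral.integral_add_adjacent_intervals]
    · apply ContinuousOn.intervalIntegrable
      rw [uIcc_of_le (by linarith)]
      exact c2.mono (Icc_subset_Icc le_rfl (by linarith))
    · apply ContinuousOn.intervalIntegrable
      rw [uIcc_of_le (by linarith)]
      exact c2.mono (Icc_subset_Icc (by linarith) le_rfl)
  have hw := hW χ h0 h1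
  have hW1 : ∀ χ, WW χ = W1 χ - W2 χ := fun _ => rfl
  rw [hW1, hW1] at hw
  refine (lintegral_mono_set hsub).trans ((lintegral_union_le _ _ _).trans ?_)
  refine (add_le_add p1 ((lintegral_union_le _ _ _).trans (add_le_add p2 p3))).trans ?_
  rw [← ENNReal.ofReal_add q2 q3, ← ENNReal.ofReal_add q1 (add_nonneg q2 q3)]
  apply ENNReal.ofReal_le_ofReal
  rw [int_A, hB, int_C]
  linarith

theorem VU_cont (e v : E 3) : Continuous (VU e v) := by
  unfold VU qf
  fun_prop

/-- the case `⟨e, v⟩ > 0` -/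
theorem pos_case (hW : S_W) (e v : E 3) (he : ‖e‖ = 1) (hv : ‖v‖ = 1)
    (hγ : 0 < (inner ℝ e v : ℝ)) :
    ∫⁻ u : Sph 3, ENNReal.ofReal (N1 e (u : E 3) (VU e v (u : E 3))) ∂(sig 3) ≤
      ENNReal.ofReal (2 * Real.pi * (1 / 3)) := by
  obtain ⟨b, g, hb0, heb, hg⟩ := frame v e hv he
  have hve : (inner ℝ v e : ℝ) = inner ℝ e v := real_inner_comm _ _
  rw [hve] at heb hg
  set γ : ℝ := inner ℝ e v with hγd
  refine lint_le b (fun u => N1 e u (VU e v u)) (N1_meas e _ (VU_cont e v)) (1 / 3)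
    (by norm_num) fun ω => ?_
  set η : ℝ := g * Real.cos ω with hη
  set κ : ℝ := √(γ ^ 2 + η ^ 2) with hκ
  have hκ2 : κ ^ 2 = γ ^ 2 + η ^ 2 := Real.sq_sqrt (by positivity)
  have hκ0 : 0 < κ := Real.sqrt_pos.2 (by positivity)
  have hx2 : (η / κ) ^ 2 ≤ 1 := by
    rw [div_pow, hκ2, div_le_one (by positivity)]
    nlinarith [sq_nonneg γ]
  have hx := abs_le_of_sq_le_sq' (a := η / κ) (b := 1) (by linarith) zero_le_one
  set χ : ℝ := Real.arccos (η / κ) with hχ
  have hcos : κ * Real.cos χ = η := by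
    rw [hχ, Real.cos_arccos hx.1 hx.2]; field_simp
  have hsin : κ * Real.sin χ = γ := by
    have h1 : 0 ≤ Real.sin χ := by rw [hχ, Real.sin_arccos]; exact Real.sqrt_nonneg _
    have h2 : (κ * Real.sin χ) ^ 2 = γ ^ 2 := by
      have := Real.sin_sq_add_cos_sq χ
      have h3 : (κ * Real.sin χ) ^ 2 = κ ^ 2 - (κ * Real.cos χ) ^ 2 := by
        linear_combination (κ ^ 2) * this
      rw [h3, hcos, hκ2]; ring
    have h4 : 0 ≤ κ * Real.sin χ := by positivity
    nlinarith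
  have hs0 : Real.sin χ ≠ 0 := by
    intro h; rw [h, mul_zero] at hsin; exact hγ.ne hsin
  have hχ0 : 0 < χ := by
    rcases (Real.arccos_nonneg (η / κ)).lt_or_eq with h | h
    · exact h
    · exfalso; apply hs0; rw [hχ, ← h, Real.sin_zero]
  have hχ1 : χ < Real.pi := by
    rcases (Real.arccos_le_pi (η / κ)).lt_or_eq with h | h
    · exact h
    · exfalso; apply hs0; rw [hχ, h, Real.sin_pi]
  have hval : ∀ α : ℝ, 0 ≤ Real.sin α → _ := fun α hα =>
    val_U e v (sp b ω α) he hv (norm_sp b ω α) κ χ α hκ0 hα (by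
      have h5 : (inner ℝ v (sp b ω α) : ℝ) = Real.cos α := by rw [← hb0]; exact inner_b0_sp b ω α
      rw [heb, inner_add_left, real_inner_smul_left, real_inner_smul_left, h5, inner_b1_sp,
        Real.sin_add]
      linear_combination (-Real.cos α) * hsin - (Real.sin α) * hcos) (by
      rw [← hb0]; exact inner_b0_sp b ω α) (by rw [hsin])
  exact circ hW χ hχ0 hχ1 _
    (fun α h1 h2 => (hval α h1).1 h2 (by linarith [Real.neg_one_le_cos (α + χ)]))
    (fun α h1 h2 => (hval α h1).2 h2 (by linarith [Real.cos_le_one (α + χ)]))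

/-- the case `⟨e, v⟩ = 0` -/
theorem zero_case (e v : E 3) (he : ‖e‖ = 1) (hv : ‖v‖ = 1) (hγ : (inner ℝ e v : ℝ) = 0) :
    ∫⁻ u : Sph 3, ENNReal.ofReal (N1 e (u : E 3) (VU e v (u : E 3))) ∂(sig 3) ≤
      ENNReal.ofReal (2 * Real.pi * (1 / 3)) := by
  obtain ⟨b, g, hb0, -, -⟩ := frame v v hv hv
  refine lint_le b (fun u => N1 e u (VU e v u)) (N1_meas e _ (VU_cont e v)) (1 / 3)
    (by norm_num) fun ω => ?_
  have hval : ∀ α : ℝ, N1 e (sp b ω α) (VU e v (sp b ω α)) ≤ |Real.cos α| - Real.cos α ^ 2 := by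
    intro α
    have h2 : (inner ℝ v (sp b ω α) : ℝ) = Real.cos α := by rw [← hb0]; exact inner_b0_sp b ω α
    set c : ℝ := inner ℝ e (sp b ω α) with hc
    have h0 : 0 ≤ |Real.cos α| - Real.cos α ^ 2 := by
      have h3 := Real.abs_cos_le_one α
      rw [← sq_abs]
      nlinarith [abs_nonneg (Real.cos α)]
    rw [N1_VU e v _ he hv (norm_sp b ω α) c (Real.cos α) 0 (2 * c * Real.cos α) hc.symm h2 hγ
      (by ring)]
    by_cases hc0 : c = 0
    · rw [hc0]; simpa using h0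
    · have hcp : 0 < c ^ 2 := by positivity
      rw [div_le_iff₀ hcp]
      have h4 : (2 * c * Real.cos α) ^ 2 / 4 * (c ^ 2 - 0 * (2 * c * Real.cos α)) =
          (c ^ 2 * |Real.cos α|) ^ 2 := by
        rw [mul_pow _ |Real.cos α|, sq_abs]; ring
      rw [h4, Real.sqrt_sq (by positivity)]
      apply le_of_eq
      ring
  have hpi := Real.pi_pos
  have hsub : Ioo 0 Real.pi ⊆ Ioc 0 (Real.pi / 2) ∪ Ioc (Real.pi / 2) Real.pi := by
    intro α hα
    rcases le_or_gt α (Real.pi / 2) with h | h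
    · exact Or.inl ⟨hα.1, h⟩
    · exact Or.inr ⟨h, hα.2.le⟩
  have t1 : ∀ α ∈ Ioc 0 (Real.pi / 2), 0 ≤ Real.sin α ∧ 0 ≤ Real.cos α := fun α hα =>
    ⟨Real.sin_nonneg_of_nonneg_of_le_pi hα.1.le (by linarith [hα.2]),
      Real.cos_nonneg_of_mem_Icc ⟨by linarith [hα.1], hα.2⟩⟩
  have t2 : ∀ α ∈ Ioc (Real.pi / 2) Real.pi, 0 ≤ Real.sin α ∧ Real.cos α ≤ 0 := fun α hα =>
    ⟨Real.sin_nonneg_of_nonneg_of_le_pi (by linarith [hα.1]) hα.2,
      Real.cos_nonpos_of_pi_div_two_le_of_le hα.1.le (by linarith [hα.2])⟩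
  have p1 := piece (fun φ => Real.sin φ * N1 e (sp b ω φ) (VU e v (sp b ω φ)))
    (fun φ => Real.sin φ * (Real.cos φ - Real.cos φ ^ 2)) 0 (Real.pi / 2) (by positivity)
    (by fun_prop) (fun α hα => by
      obtain ⟨h1, h2⟩ := t1 α hα
      have := Real.cos_le_one α
      show 0 ≤ Real.sin α * (Real.cos α - Real.cos α ^ 2)
      have h3 : 0 ≤ Real.cos α - Real.cos α ^ 2 := by nlinarith
      positivity) (fun α hα => by
      obtain ⟨h1, h2⟩ := t1 α hα
      have := hval α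
      rw [abs_of_nonneg h2] at this
      exact mul_le_mul_of_nonneg_left this h1)
  have p2 := piece (fun φ => Real.sin φ * N1 e (sp b ω φ) (VU e v (sp b ω φ)))
    (fun φ => Real.sin φ * (-Real.cos φ - Real.cos φ ^ 2)) (Real.pi / 2) Real.pi (by linarith)
    (by fun_prop) (fun α hα => by
      obtain ⟨h1, h2⟩ := t2 α hα
      have := Real.neg_one_le_cos α
      show 0 ≤ Real.sin α * (-Real.cos α - Real.cos α ^ 2)
      have h3 : 0 ≤ -Real.cos α - Real.cos α ^ 2 := by nlinarith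
      positivity) (fun α hα => by
      obtain ⟨h1, h2⟩ := t2 α hα
      have := hval α
      rw [abs_of_nonpos h2] at this
      exact mul_le_mul_of_nonneg_left this h1)
  have i1 : ∫ φ in (0:ℝ)..Real.pi / 2, Real.sin φ * (Real.cos φ - Real.cos φ ^ 2) = 1 / 6 := by
    have h : ∀ φ ∈ uIcc (0:ℝ) (Real.pi / 2), HasDerivAt
        (fun φ => Real.cos φ ^ 3 / 3 - Real.cos φ ^ 2 / 2)
        (Real.sin φ * (Real.cos φ - Real.cos φ ^ 2)) φ := by
      intro φ _
      refine ((((Real.hasDerivAt_cos φ).pow 3).div_const 3).sub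
        (((Real.hasDerivAt_cos φ).pow 2).div_const 2)).congr_deriv ?_
      push_cast
      ring
    rw [intervalIntegral.integral_eq_sub_of_hasDerivAt h
      (Continuous.intervalIntegrable (by fun_prop) _ _)]
    simp
    norm_num
  have i2 : ∫ φ in (Real.pi / 2)..Real.pi, Real.sin φ * (-Real.cos φ - Real.cos φ ^ 2) =
      1 / 6 := by
    have h : ∀ φ ∈ uIcc (Real.pi / 2) Real.pi, HasDerivAt
        (fun φ => Real.cos φ ^ 3 / 3 + Real.cos φ ^ 2 / 2)
        (Real.sin φ * (-Real.cos φ - Real.cos φ ^ 2)) φ := by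
      intro φ _
      refine ((((Real.hasDerivAt_cos φ).pow 3).div_const 3).add
        (((Real.hasDerivAt_cos φ).pow 2).div_const 2)).congr_deriv ?_
      push_cast
      ring
    rw [intervalIntegral.integral_eq_sub_of_hasDerivAt h
      (Continuous.intervalIntegrable (by fun_prop) _ _)]
    simp
    norm_num
  rw [i1] at p1
  rw [i2] at p2
  refine (lintegral_mono_set hsub).trans ((lintegral_union_le _ _ _).trans ?_)
  refine (add_le_add p1 p2).trans ?_
  rw [← ENNReal.ofReal_add (by norm_num) (by norm_num)]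
  apply ENNReal.ofReal_le_ofReal
  norm_num

/-- [FB-U] -/
theorem s_U (hW : S_W) : S_U := by
  intro e v he hv
  have H : ∫⁻ u : Sph 3, ENNReal.ofReal (N1 e (u : E 3) (VU e v (u : E 3))) ∂(sig 3) ≤
      ENNReal.ofReal (2 * Real.pi * (1 / 3)) := by
    rcases lt_trichotomy (inner ℝ e v : ℝ) 0 with h | h | h
    · have h1 := pos_case hW e (-v) he (by rw [norm_neg, hv]) (by rw [inner_neg_right]; linarith)
      simp only [VU_neg] at h1
      exact h1
    · exact zero_case e v he hv h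
    · exact pos_case hW e v he hv h
  have h2 := fin_of (fun u => N1 e u (VU e v u)) (N1_meas e _ (VU_cont e v))
    (fun u => N1_nonneg _ _ _) _ (by positivity) H
  refine ⟨h2.1, ?_⟩
  refine le_trans h2.2 (le_of_eq ?_)
  ring

end Pool.Agent.L7h56.FB
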